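import Mathlib

/-! Rooted trees as parent functions. -/

namespace V11115

open SimpleGraph

/-- A rooting of a graph: a root, a parent function and a depth function such that the edges are
exactly the pairs child–parent. -/
structure Rooting {V : Type*} (G : SimpleGraph V) where
  root : V
  par : V → V
  dep : V → ℕ
  par_dep : ∀ v, v ≠ root → dep (par v) < dep v
  adj_iff : ∀ u v, G.Adj u v ↔ (u ≠ root ∧ par u = v) ∨ (v ≠ root ∧ par v = u)

theorem exists_rooting {V : Type*} {G : SimpleGraph V} (hG : G.IsTree) (r : V) :
    ∃ R : Rooting G, R.root = r := by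
  classical
  have hq : ∀ v, ∃ p : G.Walk r v, p.IsPath := fun v => (hG.existsUnique_path r v).exists
  choose q hq using hq
  have hnil : ∀ v, v ≠ r → ¬ (q v).Nil := by
    intro v hv h
    exact hv (h.eq).symm
  have hadj : ∀ v, v ≠ r → G.Adj (q v).penultimate v := by
    intro v hv
    exact (q v).adj_penultimate (hnil v hv)
  have key : ∀ u v, G.Adj u v → u ∈ (q v).support →
      v ≠ r ∧ (q v).penultimate = u ∧ (q u).length < (q v).length := by
    intro u v h hu
    have e := hG.isAcyclic.path_concat (hq u) (hq v) h hu
    refine ⟨?_, ?_, ?_⟩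
    · rintro rfl
      have h0 : (q v).length = 0 := by
        have := (hG.isAcyclic.subsingleton_path v v).elim ⟨q v, hq v⟩ ⟨Walk.nil, Walk.IsPath.nil⟩
        have h1 : q v = Walk.nil := congrArg Subtype.val this
        rw [h1]; rfl
      rw [e, Walk.length_concat] at h0
      omega
    · rw [e, Walk.penultimate_concat]
    · rw [e, Walk.length_concat]; omega
  have key2 : ∀ u v, G.Adj u v → u ∈ (q v).support ∨ v ∈ (q u).support := by
    intro u v h
    by_cases hu : u ∈ (q v).support
    · exact Or.inl hu
    · exact Or.inr (hG.isAcyclic.mem_support_of_ne_mem_support_of_adj_of_isPath (hq u) (hq v) h hu)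
  refine ⟨⟨r, fun v => (q v).penultimate, fun v => (q v).length, ?_, ?_⟩, rfl⟩
  · intro v hv
    rcases key2 _ _ (hadj v hv) with h | h
    · exact (key _ _ (hadj v hv) h).2.2
    · exfalso
      have e := hG.isAcyclic.path_concat (hq v) (hq _) (hadj v hv).symm h
      have hm : (q v).penultimate ∈ (q v).support := Walk.getVert_mem_support _ _
      have := hG.isAcyclic.ne_mem_support_of_support_of_adj_of_isPath (hq v) (hq _)
        (hadj v hv).symm hm
      exact this h
  · intro u v
    constructor
    · intro h
      rcases key2 _ _ h with h' | h'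
      · obtain ⟨a, b, _⟩ := key _ _ h h'
        exact Or.inr ⟨a, b⟩
      · obtain ⟨a, b, _⟩ := key _ _ h.symm h'
        exact Or.inl ⟨a, b⟩
    · rintro (⟨a, b⟩ | ⟨a, b⟩)
      · rw [← b]; exact (hadj u a).symm
      · rw [← b]; exact hadj v a

namespace Rooting

variable {V : Type*} {G : SimpleGraph V} (R : Rooting G)

/-- Top-down definition of a labelling: the root gets `init`, and `F p v` is the label of `v`
when `p` is the label of its parent. -/
noncomputable def topDown {α : Type*} (init : α) (F : α → V → α) : ℕ → V → α
  | 0, _ => init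
  | n + 1, v => by
      classical
      exact if v = R.root then init else F (topDown init F n (R.par v)) v

theorem topDown_stable {α : Type*} (init : α) (F : α → V → α) :
    ∀ n v, R.dep v ≤ n → R.topDown init F n v = R.topDown init F (R.dep v) v := by
  classical
  have main : ∀ d v, R.dep v = d → ∀ n, d ≤ n →
      R.topDown init F n v = R.topDown init F d v := by
    intro d
    induction d using Nat.strong_induction_on with
    | _ d ih =>
      intro v hv n hn
      by_cases hr : v = R.root
      · subst hr
        have : ∀ m, R.topDown init F m R.root = init := by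
          intro m; cases m with
          | zero => rfl
          | succ m => simp [topDown]
        rw [this, this]
      · have hp := R.par_dep v hr
        obtain ⟨d', rfl⟩ : ∃ d', d = d' + 1 := ⟨d - 1, by omega⟩
        obtain ⟨n', rfl⟩ : ∃ n', n = n' + 1 := ⟨n - 1, by omega⟩
        have e1 := ih (R.dep (R.par v)) (by omega) (R.par v) rfl n' (by omega)
        have e2 := ih (R.dep (R.par v)) (by omega) (R.par v) rfl d' (by omega)
        simp only [topDown, hr, if_false, e1, e2]
  intro n v h
  exact main _ v rfl n h

/-- The labelling defined top-down. -/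
noncomputable def lab {α : Type*} (init : α) (F : α → V → α) (v : V) : α :=
  R.topDown init F (R.dep v) v

theorem lab_root {α : Type*} (init : α) (F : α → V → α) : R.lab init F R.root = init := by
  unfold lab
  cases h : R.dep R.root with
  | zero => rfl
  | succ m => simp [topDown]

theorem lab_of_ne {α : Type*} (init : α) (F : α → V → α) {v : V} (hv : v ≠ R.root) :
    R.lab init F v = F (R.lab init F (R.par v)) v := by
  have hp := R.par_dep v hv
  unfold lab
  obtain ⟨d', hd⟩ : ∃ d', R.dep v = d' + 1 := ⟨R.dep v - 1, by omega⟩
  rw [hd]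
  simp only [topDown, hv, if_false]
  rw [R.topDown_stable init F d' (R.par v) (by omega)]

open Classical in
/-- The children of a vertex. -/
noncomputable def children [Fintype V] (v : V) : Finset V :=
  Finset.univ.filter (fun c => c ≠ R.root ∧ R.par c = v)

theorem mem_children [Fintype V] {v c : V} :
    c ∈ R.children v ↔ c ≠ R.root ∧ R.par c = v := by
  simp [children]

open Classical in
/-- Sum over all vertices of the sum over the children. -/
theorem sum_children [Fintype V] {M : Type*} [AddCommGroup M] (a : V → M) :
    ∑ v, ∑ c ∈ R.children v, a c = (∑ v, a v) - a R.root := by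
  have h1 : ∀ v, ∑ c ∈ R.children v, a c
      = ∑ c ∈ (Finset.univ.filter (fun c => c ≠ R.root)) with R.par c = v, a c := by
    intro v
    apply Finset.sum_congr _ (fun _ _ => rfl)
    ext c
    simp [children]
  have h2 : ∑ v, ∑ c ∈ R.children v, a c = ∑ c ∈ Finset.univ.filter (fun c => c ≠ R.root), a c := by
    rw [← Finset.sum_fiberwise_of_maps_to
      (s := Finset.univ.filter (fun c => c ≠ R.root)) (t := Finset.univ) (g := R.par)
      (fun _ _ => Finset.mem_univ _)]
    apply Finset.sum_congr rfl
    intro v _
    rw [h1 v]
  rw [h2, Finset.filter_ne' Finset.univ R.root]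
  rw [← Finset.add_sum_erase Finset.univ a (Finset.mem_univ R.root)]
  abel

/-- The number of neighbours in a set. -/
theorem card_nbr [Fintype V] [DecidableEq V] [DecidableRel G.Adj] (U : Finset V) (v : V) :
    (G.neighborFinset v ∩ U).card = ∑ c ∈ R.children v, (if c ∈ U then 1 else 0) +
      (if v ≠ R.root ∧ R.par v ∈ U then 1 else 0) := by
  have h1 : G.neighborFinset v ∩ U = ((R.children v).filter (fun c => c ∈ U)) ∪
      (if v ≠ R.root ∧ R.par v ∈ U then {R.par v} else ∅) := by
    ext u
    rw [Finset.mem_inter, G.mem_neighborFinset, R.adj_iff, Finset.mem_union, Finset.mem_filter,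
      R.mem_children]
    constructor
    · rintro ⟨⟨a, b⟩ | ⟨a, b⟩, hu⟩
      · right
        subst b
        rw [if_pos ⟨a, hu⟩]; simp
      · left; exact ⟨⟨a, b⟩, hu⟩
    · rintro (⟨⟨a, b⟩, hu⟩ | h)
      · exact ⟨Or.inr ⟨a, b⟩, hu⟩
      · split_ifs at h with hc
        · rw [Finset.mem_singleton] at h
          subst h
          exact ⟨Or.inl ⟨hc.1, rfl⟩, hc.2⟩
        · simp at h
  rw [h1, Finset.card_union_of_disjoint]
  · congr 1
    · rw [Finset.card_filter]
    · split_ifs <;> simp
  · rw [Finset.disjoint_left]
    intro u hu h
    split_ifs at h with hc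
    · rw [Finset.mem_singleton] at h
      subst h
      rw [Finset.mem_filter, R.mem_children] at hu
      obtain ⟨⟨a, b⟩, _⟩ := hu
      have h2 := R.par_dep v hc.1
      have h3 := R.par_dep _ a
      rw [b] at h3
      omega
    · simp at h

/-- Induction along the rooting, from the root downwards. -/
theorem induct {P : V → Prop} (h0 : P R.root) (h1 : ∀ v, v ≠ R.root → P (R.par v) → P v) (v : V) :
    P v := by
  have main : ∀ d v, R.dep v = d → P v := by
    intro d
    induction d using Nat.strong_induction_on with
    | _ d ih =>
      intro v hv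
      by_cases hr : v = R.root
      · subst hr; exact h0
      · exact h1 v hr (ih _ (by have := R.par_dep v hr; omega) _ rfl)
  exact main _ v rfl

theorem reachable_root (v : V) : G.Reachable v R.root := by
  apply R.induct (P := fun v => G.Reachable v R.root)
  · exact Reachable.refl _
  · intro v hv ih
    have : G.Adj v (R.par v) := (R.adj_iff _ _).mpr (Or.inl ⟨hv, rfl⟩)
    exact this.reachable.trans ih

include R in
theorem isTree [Fintype V] : G.IsTree := by
  classical
  rw [isTree_iff_connected_and_card]
  constructor
  · have : Nonempty V := ⟨R.root⟩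
    exact ⟨fun u v => (R.reachable_root u).trans (R.reachable_root v).symm⟩
  · have h1 : G.edgeSet = (fun v => s(v, R.par v)) '' {v | v ≠ R.root} := by
      ext e
      induction e using Sym2.ind with
      | _ x y =>
        rw [mem_edgeSet, R.adj_iff]
        constructor
        · rintro (⟨a, b⟩ | ⟨a, b⟩)
          · exact ⟨x, a, by simp [b]⟩
          · exact ⟨y, a, by simp [b, Sym2.eq_swap]⟩
        · rintro ⟨z, hz, hzz⟩
          rw [Sym2.eq_iff] at hzz
          rcases hzz with ⟨rfl, rfl⟩ | ⟨rfl, rfl⟩
          · exact Or.inl ⟨hz, rfl⟩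
          · exact Or.inr ⟨hz, rfl⟩
    have h2 : Set.InjOn (fun v => s(v, R.par v)) {v | v ≠ R.root} := by
      intro x hx y hy hxy
      simp only [Sym2.eq_iff] at hxy
      rcases hxy with ⟨a, _⟩ | ⟨a, b⟩
      · exact a
      · exfalso
        have h3 := R.par_dep x hx
        have h4 := R.par_dep y hy
        rw [b] at h3
        rw [← a] at h4
        omega
    have h3 : G.edgeSet.ncard = ({v | v ≠ R.root} : Set V).ncard := by
      rw [h1, h2.ncard_image]
    have h4 : ({v | v ≠ R.root} : Set V) = {R.root}ᶜ := by ext; simp
    have h5 : ({v | v ≠ R.root} : Set V).ncard + 1 = Nat.card V := by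
      rw [h4]
      have := Set.ncard_add_ncard_compl ({R.root} : Set V)
      rw [Set.ncard_singleton] at this
      omega
    rw [← h5, ← h3]
    rfl

/-- Telescoping inequality. -/
theorem telescope [Fintype V] (a b : V → ℤ)
    (h : ∀ v, b v + ∑ c ∈ R.children v, a c ≤ a v) : ∑ v, b v ≤ a R.root := by
  have h1 : ∑ v, (b v + ∑ c ∈ R.children v, a c) ≤ ∑ v, a v :=
    Finset.sum_le_sum (fun v _ => h v)
  rw [Finset.sum_add_distrib, R.sum_children] at h1
  linarith

end Rooting

end V11115
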