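import Mathlib
import Pool.Agent.V11115.Rooted

/-! A general verified scheme for optimisation on trees by finite profile tables. -/

namespace V11115

open SimpleGraph

namespace Rooting

variable {V : Type*} {G : SimpleGraph V} (R : Rooting G)

/-- Bottom-up choice of a labelling. -/
theorem bottomUp [Fintype V] {α : Type*} (Rel : V → (V → α) → α → Prop) (a0 : α)
    (hex : ∀ v τ, ∃ t, Rel v τ t)
    (hloc : ∀ v τ τ' t, (∀ c ∈ R.children v, τ c = τ' c) → Rel v τ t → Rel v τ' t) :
    ∃ τ : V → α, ∀ v, Rel v τ (τ v) := by
  classical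
  let D : ℕ := Finset.univ.sup R.dep
  have hD : ∀ v, R.dep v ≤ D := fun v => Finset.le_sup (f := R.dep) (Finset.mem_univ v)
  have hc : ∀ v, ∀ c ∈ R.children v, D - R.dep c < D - R.dep v := by
    intro v c hc
    rw [R.mem_children] at hc
    have h1 := R.par_dep c hc.1
    rw [hc.2] at h1
    have := hD c
    omega
  have main : ∀ n, ∃ τ : V → α, ∀ v, D - R.dep v < n → Rel v τ (τ v) := by
    intro n
    induction n with
    | zero => exact ⟨fun _ => a0, fun v hv => absurd hv (Nat.not_lt_zero _)⟩
    | succ n ih =>
      obtain ⟨τ, hτ⟩ := ih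
      have hch := fun v => hex v τ
      choose t ht using hch
      refine ⟨fun v => if D - R.dep v < n then τ v else t v, ?_⟩
      intro v hv
      by_cases h : D - R.dep v < n
      · simp only [h, if_true]
        apply hloc v τ
        · intro c hcc
          have := hc v c hcc
          have h' : D - R.dep c < n := by omega
          simp only [h', if_true]
        · exact hτ v h
      · simp only [h, if_false]
        apply hloc v τ
        · intro c hcc
          have := hc v c hcc
          have h' : D - R.dep c < n := by omega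
          simp only [h', if_true]
        · exact ht v
  obtain ⟨τ, hτ⟩ := main (D + 1)
  exact ⟨τ, fun v => hτ v (by omega)⟩

end Rooting

/-- The data of a tree optimisation scheme. `L`: labels, `Q`: accumulators over the children,
`T`: profile types of rooted subtrees, `P`: profile types of partial vertices. -/
structure DP (L Q T P : Type) where
  init : L → Q
  step : L → Q → L → Q
  gain : L → Q → L → Option ℤ
  rgain : L → Q → Option ℤ
  W : T → L → L → Option ℤ
  Pp : P → L → Q → Option ℤ
  p0 : P
  pstep : P → T → P
  fin : P → T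

/-- `x ≤ y + z` when all are defined. -/
def leAdd (x : ℤ) (y z : Option ℤ) : Prop :=
  match y, z with
  | some y, some z => x ≤ y + z
  | _, _ => False

instance (x : ℤ) (y z : Option ℤ) : Decidable (leAdd x y z) := by
  unfold leAdd; cases y <;> cases z <;> infer_instance

theorem leAdd_iff {x : ℤ} {y z : Option ℤ} :
    leAdd x y z ↔ ∃ y' z', y = some y' ∧ z = some z' ∧ x ≤ y' + z' := by
  unfold leAdd
  cases y <;> cases z <;> simp

/-- A property of the value of an optional integer, if there is one. -/
def optAll (o : Option ℤ) (p : ℤ → Prop) : Prop :=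
  match o with
  | some x => p x
  | none => True

instance (o : Option ℤ) (p : ℤ → Prop) [DecidablePred p] : Decidable (optAll o p) := by
  unfold optAll; cases o <;> infer_instance

theorem optAll_iff {o : Option ℤ} {p : ℤ → Prop} : optAll o p ↔ ∀ x, o = some x → p x := by
  unfold optAll; cases o <;> simp

namespace DP

variable {L Q T P : Type} (A : DP L Q T P)

/-- Validity of the initial profile. -/
def InitOK : Prop := ∀ ℓ q x, A.Pp A.p0 ℓ q = some x → q = A.init ℓ ∧ x ≤ 0

/-- Validity of the step table. -/
def StepOK : Prop := ∀ π t ℓ q' x, A.Pp (A.pstep π t) ℓ q' = some x →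
  ∃ q c, A.step ℓ q c = q' ∧ leAdd x (A.Pp π ℓ q) (A.W t c ℓ)

/-- Validity of the finalisation table. -/
def FinOK : Prop := ∀ π ℓ p x, A.W (A.fin π) ℓ p = some x →
  ∃ q, leAdd x (A.Pp π ℓ q) (A.gain ℓ q p)

/-- The root can always be finished with total at least `k`. -/
def RootOK (k : ℤ) : Prop := ∀ π, ∃ ℓ q, leAdd k (A.Pp π ℓ q) (A.rgain ℓ q)

/-- The accumulator at a vertex under a labelling. -/
noncomputable def acc {V : Type*} [Fintype V] {G : SimpleGraph V} (R : Rooting G)
    (lab : V → L) (v : V) : Q :=
  (R.children v).toList.foldl (fun q c => A.step (lab v) q (lab c)) (A.init (lab v))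

theorem fold_lemma {V : Type*} (hI : A.InitOK) (hS : A.StepOK) (τ : V → T) (ℓ : L) :
    ∀ (l : List V), l.Nodup → ∀ q x,
      A.Pp (l.foldl (fun π c => A.pstep π (τ c)) A.p0) ℓ q = some x →
      ∃ (s : V → L) (z : V → ℤ), l.foldl (fun q c => A.step ℓ q (s c)) (A.init ℓ) = q ∧
        (∀ c ∈ l, A.W (τ c) (s c) ℓ = some (z c)) ∧ x ≤ (l.map z).sum := by
  classical
  intro l
  induction l using List.reverseRecOn with
  | nil =>
    intro _ q x h
    simp only [List.foldl_nil] at h
    obtain ⟨h1, h2⟩ := hI ℓ q x h
    exact ⟨fun _ => ℓ, fun _ => 0, by simp [h1], by simp, by simpa using h2⟩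
  | append_singleton l a ih =>
    intro hnd q x h
    rw [List.foldl_append, List.foldl_cons, List.foldl_nil] at h
    obtain ⟨q0, c, hq, hle⟩ := hS _ _ _ _ _ h
    rw [leAdd_iff] at hle
    obtain ⟨y, w, hy, hw, hxy⟩ := hle
    have hnd' : l.Nodup := by
      rw [List.nodup_append] at hnd; exact hnd.1
    have ha : a ∉ l := by
      rw [List.nodup_append] at hnd
      intro hal
      exact hnd.2.2 a hal a (by simp) rfl
    obtain ⟨s, z, hs1, hs2, hs3⟩ := ih hnd' q0 y hy
    refine ⟨Function.update s a c, Function.update z a w, ?_, ?_, ?_⟩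
    · rw [List.foldl_append, List.foldl_cons, List.foldl_nil]
      have e : l.foldl (fun q c_1 => A.step ℓ q (Function.update s a c c_1)) (A.init ℓ)
          = l.foldl (fun q c => A.step ℓ q (s c)) (A.init ℓ) := by
        apply List.foldl_ext
        intro b d hd
        have : d ≠ a := fun h => ha (h ▸ hd)
        simp [this]
      rw [e, hs1]
      simp [hq]
    · intro d hd
      rw [List.mem_append, List.mem_singleton] at hd
      by_cases hda : d = a
      · subst hda; simp [hw]
      · have hdl : d ∈ l := by tauto
        simp only [Function.update_of_ne hda]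
        exact hs2 d hdl
    · rw [List.map_append, List.sum_append, List.map_cons, List.map_nil, List.sum_singleton]
      have e : l.map (Function.update z a w) = l.map z := by
        apply List.map_congr_left
        intro d hd
        have : d ≠ a := fun h => ha (h ▸ hd)
        simp [this]
      rw [e]
      simp only [Function.update_self]
      linarith

/-- The main theorem of the scheme. -/
theorem exists_labelling {V : Type*} [Fintype V] {G : SimpleGraph V} (R : Rooting G)
    (hI : A.InitOK) (hS : A.StepOK) (hF : A.FinOK) {k : ℤ} (hR : A.RootOK k) :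
    ∃ (lab : V → L) (g : V → ℤ),
      (∀ v, v ≠ R.root → A.gain (lab v) (A.acc R lab v) (lab (R.par v)) = some (g v)) ∧
      A.rgain (lab R.root) (A.acc R lab R.root) = some (g R.root) ∧ k ≤ ∑ v, g v := by
  classical
  obtain ⟨τ, hτ⟩ := R.bottomUp
    (fun v τ t => t = A.fin ((R.children v).toList.foldl (fun π c => A.pstep π (τ c)) A.p0))
    (A.fin A.p0) (fun v τ => ⟨_, rfl⟩) (by
      intro v τ τ' t h ht
      rw [ht]
      congr 1
      apply List.foldl_ext
      intro b d hd
      rw [h d (by simpa using hd)])
  let π : V → P := fun v => (R.children v).toList.foldl (fun π c => A.pstep π (τ c)) A.p0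
  have hτ' : ∀ v, τ v = A.fin (π v) := hτ
  -- the choice at a vertex for own label `ℓ` and a bound `y` in the profile
  have hch : ∀ v ℓ q y, A.Pp (π v) ℓ q = some y →
      ∃ (s : V → L) (z : V → ℤ),
        (R.children v).toList.foldl (fun q c => A.step ℓ q (s c)) (A.init ℓ) = q ∧
        (∀ c ∈ R.children v, A.W (τ c) (s c) ℓ = some (z c)) ∧
        y ≤ ∑ c ∈ R.children v, z c := by
    intro v ℓ q y h
    obtain ⟨s, z, h1, h2, h3⟩ := A.fold_lemma hI hS τ ℓ _ (Finset.nodup_toList _) q y h
    refine ⟨s, z, h1, ?_, ?_⟩
    · intro c hc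
      exact h2 c (by simpa using hc)
    · rw [Finset.sum_map_toList] at h3
      exact h3
  -- the choice at a nonroot vertex
  have hnr : ∀ v ℓ p, ∃ (s : V → L), ∀ x, A.W (τ v) ℓ p = some x →
      ∃ (z : V → ℤ) (g : ℤ),
        (∀ c ∈ R.children v, A.W (τ c) (s c) ℓ = some (z c)) ∧
        A.gain ℓ ((R.children v).toList.foldl (fun q c => A.step ℓ q (s c)) (A.init ℓ)) p
          = some g ∧ x ≤ ∑ c ∈ R.children v, z c + g := by
    intro v ℓ p
    by_cases h : ∃ x, A.W (τ v) ℓ p = some x
    · obtain ⟨x, hx⟩ := h
      have hx' := hx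
      rw [hτ'] at hx'
      obtain ⟨q, hq⟩ := hF _ _ _ _ hx'
      rw [leAdd_iff] at hq
      obtain ⟨y, g, hy, hg, hxy⟩ := hq
      obtain ⟨s, z, h1, h2, h3⟩ := hch v ℓ q y hy
      refine ⟨s, fun x' hx'' => ⟨z, g, h2, by rw [h1]; exact hg, ?_⟩⟩
      rw [hx] at hx''
      have := Option.some.inj hx''
      linarith
    · refine ⟨fun _ => ℓ, fun x hx => absurd ⟨x, hx⟩ h⟩
  choose S hSp using hnr
  -- the root
  obtain ⟨ℓr, qr, hr⟩ := hR (π R.root)
  rw [leAdd_iff] at hr
  obtain ⟨yr, gr, hyr, hgr, hkr⟩ := hr
  obtain ⟨sr, zr, hr1, hr2, hr3⟩ := hch R.root ℓr qr yr hyr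
  -- top-down states: own label and parent's label
  let S' : V → L × L → V → L := fun u σ => if u = R.root then sr else S u σ.1 σ.2
  let F : L × L → V → L × L := fun σ v => (S' (R.par v) σ v, σ.1)
  let st : V → L × L := R.lab (ℓr, ℓr) F
  have st_root : st R.root = (ℓr, ℓr) := R.lab_root _ _
  have st_ne : ∀ v, v ≠ R.root → st v = F (st (R.par v)) v := fun v hv => R.lab_of_ne _ _ hv
  let lab : V → L := fun v => (st v).1
  have lab_root : lab R.root = ℓr := by simp only [lab, st_root]
  have st2 : ∀ v, v ≠ R.root → (st v).2 = lab (R.par v) := by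
    intro v hv; rw [st_ne v hv]
  -- labels of children
  have lab_child_root : ∀ c ∈ R.children R.root, lab c = sr c := by
    intro c hc
    rw [R.mem_children] at hc
    simp only [lab, st_ne c hc.1, F, S', hc.2, if_true]
  have lab_child : ∀ v, v ≠ R.root → ∀ c ∈ R.children v,
      lab c = S v (lab v) (lab (R.par v)) c := by
    intro v hv c hc
    rw [R.mem_children] at hc
    have h1 : lab c = S' v (st v) c := by
      simp only [lab, st_ne c hc.1, F, hc.2]
    rw [h1]
    simp only [S', hv, if_false]
    rw [st2 v hv]
  have acc_root : A.acc R lab R.root = qr := by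
    unfold acc
    rw [lab_root, ← hr1]
    apply List.foldl_ext
    intro b d hd
    rw [lab_child_root d (by simpa using hd)]
  have acc_ne : ∀ v, v ≠ R.root → A.acc R lab v = (R.children v).toList.foldl
      (fun q c => A.step (lab v) q (S v (lab v) (lab (R.par v)) c)) (A.init (lab v)) := by
    intro v hv
    unfold acc
    apply List.foldl_ext
    intro b d hd
    rw [lab_child v hv d (by simpa using hd)]
  -- the values x
  have hx : ∀ v, v ≠ R.root → ∃ x, A.W (τ v) (lab v) (lab (R.par v)) = some x := by
    have main : ∀ v, v ≠ R.root → ∃ x, A.W (τ v) (lab v) (lab (R.par v)) = some x := by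
      intro v
      apply R.induct (P := fun v => v ≠ R.root → ∃ x, A.W (τ v) (lab v) (lab (R.par v)) = some x)
      · intro h; exact absurd rfl h
      · intro v hv ih _
        have hvc : v ∈ R.children (R.par v) := (R.mem_children).mpr ⟨hv, rfl⟩
        by_cases hp : R.par v = R.root
        · rw [hp] at hvc ⊢
          rw [lab_child_root v hvc, lab_root]
          exact ⟨_, hr2 v hvc⟩
        · obtain ⟨x, hx⟩ := ih hp
          obtain ⟨z, g, h1, _, _⟩ := hSp _ _ _ x hx
          rw [lab_child _ hp v hvc]
          exact ⟨_, h1 v hvc⟩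
    exact main
  let X : V → ℤ := fun v => if h : v ≠ R.root then (hx v h).choose else k
  have hX : ∀ v, v ≠ R.root → A.W (τ v) (lab v) (lab (R.par v)) = some (X v) := by
    intro v hv
    simp only [X, dif_pos hv]
    exact (hx v hv).choose_spec
  have hg : ∀ v, v ≠ R.root → ∃ g, A.gain (lab v) (A.acc R lab v) (lab (R.par v)) = some g ∧
      X v ≤ ∑ c ∈ R.children v, X c + g := by
    intro v hv
    obtain ⟨z, g, h1, h2, h3⟩ := hSp _ _ _ _ (hX v hv)
    refine ⟨g, ?_, ?_⟩
    · rw [acc_ne v hv]; exact h2
    · have : ∑ c ∈ R.children v, X c = ∑ c ∈ R.children v, z c := by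
        apply Finset.sum_congr rfl
        intro c hc
        have hc' := (R.mem_children).mp hc
        have e1 := hX c hc'.1
        rw [hc'.2, lab_child v hv c hc] at e1
        have e2 := h1 c hc
        rw [e1] at e2
        exact Option.some.inj e2
      rw [this]; exact h3
  let g : V → ℤ := fun v => if h : v ≠ R.root then (hg v h).choose else gr
  have hgr' : g R.root = gr := by simp [g]
  refine ⟨lab, g, ?_, ?_, ?_⟩
  · intro v hv
    simp only [g, dif_pos hv]
    exact (hg v hv).choose_spec.1
  · rw [lab_root, acc_root, hgr']; exact hgr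
  · have := R.telescope (fun v => - X v) (fun v => - g v) (by
      intro v
      by_cases hv : v = R.root
      · subst hv
        have e : ∑ c ∈ R.children R.root, X c = ∑ c ∈ R.children R.root, zr c := by
          apply Finset.sum_congr rfl
          intro c hc
          have hc' := (R.mem_children).mp hc
          have e1 := hX c hc'.1
          rw [hc'.2, lab_child_root c hc, lab_root] at e1
          have e2 := hr2 c hc
          rw [e1] at e2
          exact Option.some.inj e2
        have hXr : X R.root = k := by simp [X]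
        rw [Finset.sum_neg_distrib, hgr', e, hXr]
        linarith
      · have h := (hg v hv).choose_spec.2
        have hgv : g v = (hg v hv).choose := by simp only [g, dif_pos hv]
        rw [Finset.sum_neg_distrib, hgv]
        linarith)
    rw [Finset.sum_neg_distrib] at this
    have hXr : X R.root = k := by simp [X]
    rw [hXr] at this
    linarith

end DP

end V11115
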