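import Mathlib
import Pool.Agent.Y926.TW.Dist
import Pool.Agent.W254.HP.Opt
import Pool.Agent.H301R2.SSE.Forms
import Pool.Agent.H335R2.MThm

/-! Roy's six exponentials theorem over a number field, combined with the theorem on odd zeta values
outside subspaces. -/

set_option autoImplicit false

namespace Pool.Agent.V11115.SixZeta

open Module Finset

/-- `z = β₀ + β₁ log α₁ + … + βₖ log αₖ` with algebraic `β₀`, `α_i` and `β_i ∈ K` for `i ≥ 1`. -/
def InL (K : IntermediateField ℚ ℂ) (z : ℂ) : Prop :=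
  ∃ β : ℂ, IsAlgebraic ℚ β ∧ z - β ∈ Submodule.span K {z : ℂ | IsAlgebraic ℚ (Complex.exp z)}

variable (K : IntermediateField ℚ ℂ) [FiniteDimensional ℚ K]

theorem K_alg (a : K) : IsAlgebraic ℚ (a : ℂ) :=
  (Algebra.IsAlgebraic.isAlgebraic (R := ℚ) a).algebraMap (A := ℂ)

/-- the space of the `t` with `x 0 t` and `x 1 t` linear forms in logarithms -/
def T (x : Fin 2 → ℂ) : Submodule K ℂ where
  carrier := {t | ∀ i, InL K (x i * t)}
  add_mem' := by
    intro a b ha hb i
    obtain ⟨β, hβ, h⟩ := ha i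
    obtain ⟨γ, hγ, h'⟩ := hb i
    refine ⟨β + γ, hβ.add hγ, ?_⟩
    have : x i * (a + b) - (β + γ) = (x i * a - β) + (x i * b - γ) := by ring
    rw [this]
    exact Submodule.add_mem _ h h'
  zero_mem' := by
    intro i
    refine ⟨0, isAlgebraic_zero, ?_⟩
    rw [mul_zero, sub_zero]
    exact Submodule.zero_mem _
  smul_mem' := by
    intro c t ht i
    obtain ⟨β, hβ, h⟩ := ht i
    refine ⟨(c : ℂ) * β, (K_alg K c).mul hβ, ?_⟩
    have : x i * (c • t) - (c : ℂ) * β = c • (x i * t - β) := by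
      rw [Algebra.smul_def, Algebra.smul_def]
      change x i * ((c : ℂ) * t) - (c : ℂ) * β = (c : ℂ) * (x i * t - β)
      ring
    rw [this]
    exact Submodule.smul_mem _ _ h

theorem mem_T {x : Fin 2 → ℂ} {t : ℂ} : t ∈ T K x ↔ ∀ i, InL K (x i * t) := Iff.rfl

theorem triple {x : Fin 2 → ℂ} (hx : ∀ a b : K, (a : ℂ) * x 0 + (b : ℂ) * x 1 = 0 → a = 0 ∧ b = 0)
    (y : Fin 3 → ℂ) (hy : ∀ j, y j ∈ T K x) (hli : LinearIndependent K y) (i : Fin 2) (j : Fin 3) :
    IsAlgebraic ℚ (x i * y j) := by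
  choose β hβ h using fun i j => (mem_T K).1 (hy j) i
  have h1 := Pool.Agent.H301R2.SSE.sharp_strong K x y β hx (by
    intro c hc
    rw [Fintype.linearIndependent_iff] at hli
    refine hli c ?_
    rw [← hc]
    exact Finset.sum_congr rfl fun j _ => by rw [Algebra.smul_def]; rfl) hβ h i j
  rw [h1]; exact hβ i j

theorem indep3 {s t w : ℂ} (hw : w ≠ 0) (hs : s ∉ Submodule.span K {w})
    (ht : t ∉ Submodule.span K {s, w}) : LinearIndependent K ![t, s, w] := by
  have h2 : LinearIndependent K ![s, w] := by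
    rw [linearIndependent_fin2]
    refine ⟨by simpa using hw, fun a ha => hs ?_⟩
    rw [Submodule.mem_span_singleton]
    exact ⟨a, by simpa using ha⟩
  have h3 := (linearIndependent_finCons (K := K) (x := t) (v := ![s, w])).2 ⟨h2, by
    rwa [Matrix.range_cons, Matrix.range_cons, Matrix.range_empty, Set.union_empty,
      Set.singleton_union]⟩
  exact h3

theorem dich {x : Fin 2 → ℂ} (hx : ∀ a b : K, (a : ℂ) * x 0 + (b : ℂ) * x 1 = 0 → a = 0 ∧ b = 0)
    {w : ℂ} (hw : w ∈ T K x) (hw0 : w ≠ 0) :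
    (∃ v : ℂ, T K x ≤ Submodule.span K {v, w}) ∨ ∀ t ∈ T K x, ∀ i, IsAlgebraic ℚ (x i * t) := by
  classical
  by_cases h1 : ∃ v : ℂ, T K x ≤ Submodule.span K {v, w}
  · exact Or.inl h1
  right
  have h2 : ∀ v : ℂ, ∃ s ∈ T K x, s ∉ Submodule.span K {v, w} := by
    intro v
    by_contra h3
    push Not at h3
    exact h1 ⟨v, h3⟩
  obtain ⟨s, hsT, hs⟩ := h2 w
  rw [Set.pair_eq_singleton] at hs
  obtain ⟨s', hs'T, hs'⟩ := h2 s
  have key : ∀ t ∈ T K x, t ∉ Submodule.span K {s, w} → ∀ i, IsAlgebraic ℚ (x i * t) ∧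
      IsAlgebraic ℚ (x i * s) ∧ IsAlgebraic ℚ (x i * w) := by
    intro t ht ht' i
    have h3 := triple K hx ![t, s, w] (by
      intro j
      fin_cases j
      · exact ht
      · exact hsT
      · exact hw) (indep3 K hw0 hs ht') i
    exact ⟨h3 0, h3 1, h3 2⟩
  intro t ht i
  by_cases ht' : t ∈ Submodule.span K {s, w}
  · obtain ⟨a, b, hab⟩ := Submodule.mem_span_pair.1 ht'
    obtain ⟨-, h4, h5⟩ := key s' hs'T hs' i
    have h6 : x i * t = (a : ℂ) * (x i * s) + (b : ℂ) * (x i * w) := by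
      rw [← hab, Algebra.smul_def, Algebra.smul_def]
      change x i * ((a : ℂ) * s + (b : ℂ) * w) = _
      ring
    rw [h6]
    exact ((K_alg K a).mul h4).add ((K_alg K b).mul h5)
  · exact (key t ht ht' i).1

theorem dich' {x : Fin 2 → ℂ} (hx : ∀ a b : K, (a : ℂ) * x 0 + (b : ℂ) * x 1 = 0 → a = 0 ∧ b = 0) :
    (∃ v w : ℂ, T K x ≤ Submodule.span K {v, w}) ∨ ∀ t ∈ T K x, ∀ i, IsAlgebraic ℚ (x i * t) := by
  by_cases h : ∃ w ∈ T K x, w ≠ 0
  · obtain ⟨w, hw, hw0⟩ := h
    rcases dich K hx hw hw0 with ⟨v, hv⟩ | h2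
    · exact Or.inl ⟨v, w, hv⟩
    · exact Or.inr h2
  · push Not at h
    refine Or.inl ⟨0, 0, fun t ht => ?_⟩
    rw [h t ht]
    exact Submodule.zero_mem _


/-- real points of a complex subspace -/
noncomputable def realPts (V : Submodule K ℂ) : Submodule ℚ ℝ :=
  (V.restrictScalars ℚ).comap (Complex.ofRealAm.restrictScalars ℚ).toLinearMap

theorem mem_realPts {V : Submodule K ℂ} {t : ℝ} : t ∈ realPts K V ↔ (t : ℂ) ∈ V := Iff.rfl

/-- the embedding of the real points -/
noncomputable def emb (V : Submodule K ℂ) : realPts K V →ₗ[ℚ] V where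
  toFun t := ⟨((t : ℝ) : ℂ), (mem_realPts K).1 t.2⟩
  map_add' a b := by
    apply Subtype.ext
    simp
  map_smul' q a := by
    apply Subtype.ext
    change (((q • (a : ℝ)) : ℝ) : ℂ) = q • (((a : ℝ) : ℂ))
    rw [Rat.smul_def, Rat.smul_def]
    push_cast
    rfl

theorem emb_inj (V : Submodule K ℂ) : Function.Injective (emb K V) := by
  intro a b h
  have := congrArg Subtype.val h
  apply Subtype.ext
  exact Complex.ofReal_injective this

theorem realPts_fin (V : Submodule K ℂ) [FiniteDimensional K V] :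
    FiniteDimensional ℚ (realPts K V) ∧ finrank ℚ (realPts K V) ≤ finrank ℚ K * finrank K V := by
  have : FiniteDimensional ℚ V := FiniteDimensional.trans ℚ K V
  refine ⟨Module.Finite.of_injective (emb K V) (emb_inj K V), ?_⟩
  rw [Module.finrank_mul_finrank]
  exact LinearMap.finrank_le_finrank_of_injective (emb_inj K V)

/-- the conclusion for a number `t` -/
def Good {n : ℕ} (lam : Fin n → ℂ) (t : ℂ) : Prop :=
  (∀ i l, i ≠ l → InL K (lam i * t) → InL K (lam l * t) →
    IsAlgebraic ℚ (lam i * t) ∧ IsAlgebraic ℚ (lam l * t)) ∧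
  {i | IsAlgebraic ℚ (Complex.exp (lam i * t))}.Subsingleton

theorem good_of {n : ℕ} {lam : Fin n → ℂ} (hlam : ∀ i l, i ≠ l → ∀ a : K, lam i ≠ a * lam l) {t : ℂ}
    (ht : t ≠ 0) (h : ∀ i l, l < i → InL K (lam i * t) → InL K (lam l * t) →
      IsAlgebraic ℚ (lam i * t) ∧ IsAlgebraic ℚ (lam l * t)) : Good K lam t := by
  have h1 : ∀ i l, i ≠ l → InL K (lam i * t) → InL K (lam l * t) →
      IsAlgebraic ℚ (lam i * t) ∧ IsAlgebraic ℚ (lam l * t) := by
    intro i l hil hi hl
    rcases lt_or_gt_of_ne hil with h2 | h2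
    · exact (h l i h2 hl hi).symm
    · exact h i l h2 hi hl
  refine ⟨h1, fun i hi l hl => ?_⟩
  by_contra hil
  have hL : ∀ i, IsAlgebraic ℚ (Complex.exp (lam i * t)) → InL K (lam i * t) := fun i hi =>
    ⟨0, isAlgebraic_zero, by rw [sub_zero]; exact Submodule.subset_span hi⟩
  have h2 := (h1 i l hil (hL i hi) (hL l hl)).1
  have h3 : lam i * t ≠ 0 := mul_ne_zero (by
    have := hlam i l hil 0
    simpa using this) ht
  exact Pool.Agent.H340R2.LW.transcendental_cexp _ h2 h3 hi

theorem pair_indep {n : ℕ} {lam : Fin n → ℂ} (hlam : ∀ i l, i ≠ l → ∀ a : K, lam i ≠ a * lam l)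
    {i l : Fin n} (hil : i ≠ l) (a b : K) (h : (a : ℂ) * lam i + (b : ℂ) * lam l = 0) :
    a = 0 ∧ b = 0 := by
  have ha : a = 0 := by
    by_contra ha
    have ha' : (a : ℂ) ≠ 0 := by
      intro h0
      exact ha (Subtype.ext h0)
    apply hlam i l hil (-(b / a))
    push_cast
    field_simp
    linear_combination h
  have h0 : lam l ≠ 0 := by
    have := hlam l i hil.symm 0
    simpa using this
  refine ⟨ha, ?_⟩
  rw [ha] at h
  have h1 : (b : ℂ) * lam l = 0 := by simpa using h
  rcases mul_eq_zero.1 h1 with h2 | h2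
  · exact Subtype.ext h2
  · exact absurd h2 h0

theorem card_pairs (n : ℕ) : Fintype.card (Σ k : Fin n, Fin (k : ℕ)) = n * (n - 1) / 2 := by
  rw [Fintype.card_sigma]
  simp only [Fintype.card_fin]
  rw [Fin.sum_univ_eq_sum_range (fun i => i) n, Finset.sum_range_id]

/-- general step: all large windows contain many `j` with `ζ(j)` outside a `K`-space -/
theorem window_K {b k D s : ℕ} (hk : 1 ≤ k) (V : Submodule K ℂ) [FiniteDimensional K V]
    (hD : finrank ℚ K * finrank K V ≤ D)
    (hs : (2 : ℝ) ^ (132 * (D + 1)) * ((b : ℝ) + 1) ^ 2 * (k : ℝ) ^ 3 * Real.log (k + 1) ≤ (s : ℝ) ^ 2)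
    (P : ℝ → Prop) (hP : ∀ z : ℝ, (∀ r : ℚ, ((z : ℂ) - r) ∉ V) → P z) :
    k ≤ Set.ncard {j : ℕ | b < j ∧ j ≤ s ∧ Odd j ∧ P (∑' n : ℕ, 1 / ((n : ℝ) + 1) ^ j)} := by
  obtain ⟨h1, h2⟩ := realPts_fin K V
  refine (Pool.Agent.Y926.TW.window_space hk hs (realPts K V) h1 (h2.trans hD)).trans ?_
  refine Set.ncard_le_ncard ?_ ?_
  · rintro j ⟨ha, hb, hc, hd⟩
    refine ⟨ha, hb, hc, hP _ fun r hr => hd r ?_⟩
    rw [mem_realPts]
    simpa using hr
  · exact (Set.finite_Iic s).subset fun j hj => hj.2.1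

theorem main (W : Submodule K ℂ) [FiniteDimensional K W] {b k n s : ℕ} (hk : 1 ≤ k)
    (lam : Fin n → ℂ) (hlam : ∀ i l, i ≠ l → ∀ a : K, lam i ≠ a * lam l)
    (hs : (2 : ℝ) ^ (132 * (finrank ℚ K * (finrank K W + n * (n - 1)) + 1)) * ((b : ℝ) + 1) ^ 2 *
      (k : ℝ) ^ 3 * Real.log (k + 1) ≤ (s : ℝ) ^ 2) :
    k ≤ Set.ncard {j : ℕ | b < j ∧ j ≤ s ∧ Odd j ∧ ∀ r : ℚ, ∀ w ∈ W,
      Good K lam (((∑' n : ℕ, 1 / ((n : ℝ) + 1) ^ j : ℝ) : ℂ) - r - w)} := by
  classical
  have hex : ∀ x : (Σ k : Fin n, Fin (k : ℕ)), ∃ v w : ℂ,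
      T K ![lam x.1, lam (Fin.castLE x.1.2.le x.2)] ≤ Submodule.span K {v, w} ∨
      ∀ t ∈ T K ![lam x.1, lam (Fin.castLE x.1.2.le x.2)], ∀ i,
        IsAlgebraic ℚ (![lam x.1, lam (Fin.castLE x.1.2.le x.2)] i * t) := by
    intro x
    rcases dich' K (x := ![lam x.1, lam (Fin.castLE x.1.2.le x.2)]) (fun a b h => by
      refine pair_indep K hlam (i := x.1) (l := Fin.castLE x.1.2.le x.2) ?_ a b (by simpa using h)
      intro h0
      have h1 := congrArg Fin.val h0
      have h2 := x.2.2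
      simp only [Fin.val_castLE] at h1
      omega) with ⟨v, w, h⟩ | h
    · exact ⟨v, w, Or.inl h⟩
    · exact ⟨0, 0, Or.inr h⟩
  choose fv fw hvw using hex
  set V : Submodule K ℂ := W ⊔ (Submodule.span K (Set.range fv) ⊔ Submodule.span K (Set.range fw))
    with hV
  have : FiniteDimensional K (Submodule.span K (Set.range fv)) :=
    FiniteDimensional.span_of_finite _ (Set.finite_range _)
  have : FiniteDimensional K (Submodule.span K (Set.range fw)) :=
    FiniteDimensional.span_of_finite _ (Set.finite_range _)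
  have hfr : finrank K V ≤ finrank K W + n * (n - 1) := by
    have h1 := Submodule.finrank_add_le_finrank_add_finrank W
      (Submodule.span K (Set.range fv) ⊔ Submodule.span K (Set.range fw))
    have h2 := Submodule.finrank_add_le_finrank_add_finrank (Submodule.span K (Set.range fv))
      (Submodule.span K (Set.range fw))
    have h3 := finrank_range_le_card (R := K) fv
    have h4 := finrank_range_le_card (R := K) fw
    rw [card_pairs] at h3 h4
    simp only [Set.finrank] at h3 h4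
    have h5 : n * (n - 1) / 2 + n * (n - 1) / 2 ≤ n * (n - 1) := by omega
    rw [hV]
    omega
  refine window_K K (D := finrank ℚ K * (finrank K W + n * (n - 1))) hk V
    (Nat.mul_le_mul_left _ hfr) hs
    (fun z => ∀ r : ℚ, ∀ w ∈ W, Good K lam ((z : ℂ) - r - w)) ?_
  intro z hz r w hw
  refine good_of K hlam ?_ ?_
  · intro h0
    apply hz r
    rw [sub_eq_zero.1 h0]
    exact Submodule.mem_sup_left hw
  · intro i l hli hi hl
    have hx := hvw ⟨i, ⟨l, hli⟩⟩
    have hcast : Fin.castLE i.2.le ⟨(l : ℕ), hli⟩ = l := Fin.ext rfl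
    simp only [hcast] at hx
    have hmem : (z : ℂ) - r - w ∈ T K ![lam i, lam l] := by
      intro m
      fin_cases m
      · exact hi
      · exact hl
    rcases hx with hx | hx
    · exfalso
      apply hz r
      have h1 := hx hmem
      have h2 : (z : ℂ) - r = w + ((z : ℂ) - r - w) := by ring
      rw [h2]
      refine Submodule.add_mem _ (Submodule.mem_sup_left hw) (Submodule.mem_sup_right ?_)
      refine (Submodule.span_le.2 ?_) h1
      rintro y (rfl | rfl)
      · exact Submodule.mem_sup_left (Submodule.subset_span (Set.mem_range_self _))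
      · exact Submodule.mem_sup_right (Submodule.subset_span (Set.mem_range_self _))
    · exact ⟨hx _ hmem 0, hx _ hmem 1⟩

theorem main_logs (W : Submodule K ℂ) [FiniteDimensional K W] {b k n s : ℕ} (hk : 1 ≤ k)
    (lam : Fin n → ℂ) (hlam : ∀ i l, i ≠ l → ∀ a : K, lam i ≠ a * lam l) (hlog : ∀ i, InL K (lam i))
    (hs : (2 : ℝ) ^ (132 * (finrank ℚ K * (finrank K W + 1 + n * (n - 1) / 2) + 1)) *
      ((b : ℝ) + 1) ^ 2 * (k : ℝ) ^ 3 * Real.log (k + 1) ≤ (s : ℝ) ^ 2) :
    k ≤ Set.ncard {j : ℕ | b < j ∧ j ≤ s ∧ Odd j ∧ ∀ a : K, ∀ w ∈ W,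
      Good K lam (((∑' n : ℕ, 1 / ((n : ℝ) + 1) ^ j : ℝ) : ℂ) - a - w)} := by
  classical
  have hex : ∀ x : (Σ k : Fin n, Fin (k : ℕ)), ∃ v : ℂ,
      T K ![lam x.1, lam (Fin.castLE x.1.2.le x.2)] ≤ Submodule.span K {v, 1} ∨
      ∀ t ∈ T K ![lam x.1, lam (Fin.castLE x.1.2.le x.2)], ∀ i,
        IsAlgebraic ℚ (![lam x.1, lam (Fin.castLE x.1.2.le x.2)] i * t) := by
    intro x
    rcases dich K (x := ![lam x.1, lam (Fin.castLE x.1.2.le x.2)]) (fun a b h => by
      refine pair_indep K hlam (i := x.1) (l := Fin.castLE x.1.2.le x.2) ?_ a b (by simpa using h)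
      intro h0
      have h1 := congrArg Fin.val h0
      have h2 := x.2.2
      simp only [Fin.val_castLE] at h1
      omega) (w := 1) (by
        intro i
        fin_cases i
        · simpa using hlog x.1
        · simpa using hlog (Fin.castLE x.1.2.le x.2)) one_ne_zero with ⟨v, h⟩ | h
    · exact ⟨v, Or.inl h⟩
    · exact ⟨0, Or.inr h⟩
  choose fv hvw using hex
  set V : Submodule K ℂ := W ⊔ (Submodule.span K (Set.range fv) ⊔ Submodule.span K {(1 : ℂ)})
    with hV
  have : FiniteDimensional K (Submodule.span K (Set.range fv)) :=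
    FiniteDimensional.span_of_finite _ (Set.finite_range _)
  have hfr : finrank K V ≤ finrank K W + 1 + n * (n - 1) / 2 := by
    have h1 := Submodule.finrank_add_le_finrank_add_finrank W
      (Submodule.span K (Set.range fv) ⊔ Submodule.span K {(1 : ℂ)})
    have h2 := Submodule.finrank_add_le_finrank_add_finrank (Submodule.span K (Set.range fv))
      (Submodule.span K {(1 : ℂ)})
    have h3 := finrank_range_le_card (R := K) fv
    have h4 := finrank_span_singleton (K := K) (v := (1 : ℂ)) one_ne_zero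
    rw [card_pairs] at h3
    simp only [Set.finrank] at h3
    rw [hV]
    omega
  refine window_K K (D := finrank ℚ K * (finrank K W + 1 + n * (n - 1) / 2)) hk V
    (Nat.mul_le_mul_left _ hfr) hs
    (fun z => ∀ a : K, ∀ w ∈ W, Good K lam ((z : ℂ) - a - w)) ?_
  intro z hz a w hw
  have hone : (a : ℂ) ∈ V := by
    refine Submodule.mem_sup_right (Submodule.mem_sup_right ?_)
    rw [Submodule.mem_span_singleton]
    exact ⟨a, by rw [Algebra.smul_def, mul_one]; rfl⟩
  have hz0 : (z : ℂ) ∉ V := by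
    have := hz 0
    simpa using this
  refine good_of K hlam ?_ ?_
  · intro h0
    apply hz0
    have h2 : (z : ℂ) = a + w := by linear_combination h0
    rw [h2]
    exact Submodule.add_mem _ hone (Submodule.mem_sup_left hw)
  · intro i l hli hi hl
    have hx := hvw ⟨i, ⟨l, hli⟩⟩
    have hcast : Fin.castLE i.2.le ⟨(l : ℕ), hli⟩ = l := Fin.ext rfl
    simp only [hcast] at hx
    have hmem : (z : ℂ) - a - w ∈ T K ![lam i, lam l] := by
      intro m
      fin_cases m
      · exact hi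
      · exact hl
    rcases hx with hx | hx
    · exfalso
      apply hz0
      have h1 := hx hmem
      have h2 : (z : ℂ) = a + (w + ((z : ℂ) - a - w)) := by ring
      rw [h2]
      refine Submodule.add_mem _ hone (Submodule.add_mem _ (Submodule.mem_sup_left hw)
        (Submodule.mem_sup_right ?_))
      refine (Submodule.span_le.2 ?_) h1
      rintro y (rfl | rfl)
      · exact Submodule.mem_sup_left (Submodule.subset_span (Set.mem_range_self _))
      · exact Submodule.mem_sup_right (Submodule.subset_span rfl)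
    · exact ⟨hx _ hmem 0, hx _ hmem 1⟩

end Pool.Agent.V11115.SixZeta
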