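import Pool.Agent.V11115.SparseOnesDef

/-!
# Digits of square roots: the quotient `(F(z)^2 - d) / (b z - 1)`

`F(z) = ∑ x_k z^k` is the power series of the digits of `√d` in base `b`. The coefficients of
`(F(z)^2 - d) / (b z - 1)` are positive integers; if `b` and `d` are even they are at least two
except at `2k` with `x_k` odd.
-/

set_option autoImplicit false

namespace Pool.Agent.V11115.SO

open Finset Filter Topology

section
variable {b : ℕ} (hb : 2 ≤ b) {y : ℝ} (hy : 0 ≤ y)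

include hb in
lemma floor_succ (n : ℕ) :
    ⌊y * (b : ℝ) ^ (n + 1)⌋₊ = b * ⌊y * (b : ℝ) ^ n⌋₊ + digit b y (n + 1) := by
  have h1 : ⌊y * (b : ℝ) ^ (n + 1) / (b : ℝ)⌋₊ = ⌊y * (b : ℝ) ^ (n + 1)⌋₊ / b :=
    Nat.floor_div_natCast _ _
  have hb0 : (b : ℝ) ≠ 0 := by positivity
  have h2 : y * (b : ℝ) ^ (n + 1) / (b : ℝ) = y * (b : ℝ) ^ n := by
    rw [pow_succ]; field_simp
  rw [h2] at h1
  unfold digit
  rw [if_neg (Nat.succ_ne_zero n), h1]
  exact (Nat.div_add_mod _ _).symm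

include hb in
lemma sum_digits (n : ℕ) :
    ∑ k ∈ range (n + 1), (digit b y k : ℝ) / (b : ℝ) ^ k = (⌊y * (b : ℝ) ^ n⌋₊ : ℝ) / (b : ℝ) ^ n := by
  have hb0 : (b : ℝ) ≠ 0 := by positivity
  induction n with
  | zero => simp [digit]
  | succ n ih =>
    rw [sum_range_succ, ih, floor_succ hb]
    push_cast
    rw [pow_succ]
    field_simp

include hb hy in
lemma hasSum_digits : HasSum (fun k => (digit b y k : ℝ) / (b : ℝ) ^ k) y := by
  have hbR : (2 : ℝ) ≤ b := by exact_mod_cast hb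
  rw [hasSum_iff_tendsto_nat_of_nonneg (fun k => by positivity)]
  rw [← tendsto_add_atTop_iff_nat 1]
  simp_rw [sum_digits hb]
  have h0 : Tendsto (fun n : ℕ => ((1 : ℝ) / 2) ^ n) atTop (𝓝 0) :=
    tendsto_pow_atTop_nhds_zero_of_lt_one (by norm_num) (by norm_num)
  have h1 : Tendsto (fun n : ℕ => y - ((1 : ℝ) / 2) ^ n) atTop (𝓝 y) := by
    simpa using (tendsto_const_nhds (x := y)).sub h0
  refine tendsto_of_tendsto_of_tendsto_of_le_of_le h1 tendsto_const_nhds (fun n => ?_) (fun n => ?_)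
  · have hpos : (0 : ℝ) < (b : ℝ) ^ n := by positivity
    have h2 : y * (b : ℝ) ^ n < ⌊y * (b : ℝ) ^ n⌋₊ + 1 := Nat.lt_floor_add_one _
    have h3 : (2 : ℝ) ^ n ≤ (b : ℝ) ^ n := pow_le_pow_left₀ (by norm_num) hbR n
    have h4 : 1 / (b : ℝ) ^ n ≤ (1 / 2) ^ n := by
      rw [one_div_pow]
      exact one_div_le_one_div_of_le (by positivity) h3
    have h5 : y - 1 / (b : ℝ) ^ n ≤ (⌊y * (b : ℝ) ^ n⌋₊ : ℝ) / (b : ℝ) ^ n := by
      rw [le_div_iff₀ hpos, sub_mul, one_div, inv_mul_cancel₀ hpos.ne']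
      linarith
    simp only
    linarith
  · have hpos : (0 : ℝ) < (b : ℝ) ^ n := by positivity
    have h2 : (⌊y * (b : ℝ) ^ n⌋₊ : ℝ) ≤ y * (b : ℝ) ^ n := Nat.floor_le (by positivity)
    simp only
    rw [div_le_iff₀ hpos]
    exact h2

include hb in
lemma digit_le (k : ℕ) : digit b y k ≤ ⌊y⌋₊ + b := by
  unfold digit
  split_ifs
  · omega
  · have := Nat.mod_lt ⌊y * (b : ℝ) ^ k⌋₊ (by omega : 0 < b)
    omega

/-- infinitely many digits of an irrational number are not zero -/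
lemma exists_digit_ne (hb : 2 ≤ b) (hy : 0 ≤ y) (hirr : Irrational y) (N : ℕ) :
    ∃ n, N ≤ n ∧ digit b y n ≠ 0 := by
  by_contra hcon
  push Not at hcon
  have h1 := (hasSum_digits hb hy).unique
    (hasSum_sum_of_ne_finset_zero (s := range N) (fun n hn => by
      rw [mem_range, not_lt] at hn
      rw [hcon n hn]; simp))
  apply hirr
  rw [h1]
  refine ⟨∑ k ∈ range N, (digit b y k : ℚ) / (b : ℚ) ^ k, ?_⟩
  push_cast
  rfl

end

/-- the coefficients of the square of the power series of the digits -/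
noncomputable def rr (b : ℕ) (y : ℝ) (n : ℕ) : ℕ :=
  ∑ p ∈ antidiagonal n, digit b y p.1 * digit b y p.2

lemma rr_le {b : ℕ} (hb : 2 ≤ b) (y : ℝ) (n : ℕ) : rr b y n ≤ (n + 1) * (⌊y⌋₊ + b) ^ 2 := by
  unfold rr
  calc ∑ p ∈ antidiagonal n, digit b y p.1 * digit b y p.2
      ≤ ∑ p ∈ antidiagonal n, (⌊y⌋₊ + b) ^ 2 := by
        refine sum_le_sum fun p _ => ?_
        rw [sq]
        exact Nat.mul_le_mul (digit_le hb _) (digit_le hb _)
    _ = (n + 1) * (⌊y⌋₊ + b) ^ 2 := by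
        rw [sum_const, Finset.Nat.card_antidiagonal, smul_eq_mul]

lemma rr_parity (b : ℕ) (y : ℝ) (n : ℕ) :
    (rr b y n : ZMod 2) = if Even n then (digit b y (n / 2) : ZMod 2) else 0 := by
  classical
  unfold rr
  push_cast
  have hsplit := sum_filter_add_sum_filter_not (antidiagonal n) (fun p : ℕ × ℕ => p.1 = p.2)
    (fun p => ((digit b y p.1 : ZMod 2) * (digit b y p.2 : ZMod 2)))
  rw [← hsplit]
  have hoff : ∑ p ∈ (antidiagonal n).filter (fun p : ℕ × ℕ => ¬ p.1 = p.2),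
      ((digit b y p.1 : ZMod 2) * (digit b y p.2 : ZMod 2)) = 0 := by
    refine sum_involution (fun p _ => (p.2, p.1)) ?_ ?_ ?_ ?_
    · rintro ⟨i, j⟩ _
      simp only
      rw [mul_comm (digit b y j : ZMod 2)]
      exact CharTwo.add_self_eq_zero _
    · rintro ⟨i, j⟩ h _ heq
      simp only [mem_filter, HasAntidiagonal.mem_antidiagonal, Prod.mk.injEq] at h heq
      exact h.2 heq.2
    · rintro ⟨i, j⟩ h
      simp only [mem_filter, HasAntidiagonal.mem_antidiagonal] at h ⊢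
      omega
    · rintro ⟨i, j⟩ _
      rfl
  rw [hoff, add_zero]
  by_cases hn : Even n
  · obtain ⟨k, hk⟩ := hn
    have hk2 : n / 2 = k := by omega
    rw [if_pos ⟨k, hk⟩, hk2]
    have : (antidiagonal n).filter (fun p : ℕ × ℕ => p.1 = p.2) = {(k, k)} := by
      ext ⟨i, j⟩
      simp only [mem_filter, HasAntidiagonal.mem_antidiagonal, mem_singleton, Prod.mk.injEq]
      omega
    rw [this, sum_singleton]
    simp only
    generalize (digit b y k : ZMod 2) = u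
    revert u
    decide
  · rw [if_neg hn]
    have : (antidiagonal n).filter (fun p : ℕ × ℕ => p.1 = p.2) = ∅ := by
      ext ⟨i, j⟩
      simp only [mem_filter, HasAntidiagonal.mem_antidiagonal, notMem_empty, iff_false]
      rintro ⟨h1, h2⟩
      exact hn ⟨i, by omega⟩
    rw [this, sum_empty]

/-- the coefficients of `(F(z)^2 - d) / (b z - 1)` -/
noncomputable def TT (b d : ℕ) (y : ℝ) : ℕ → ℤ
  | 0 => d - rr b y 0
  | (n + 1) => b * TT b d y n - rr b y (n + 1)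

lemma TT_eq (b d : ℕ) (hb : 2 ≤ b) (y : ℝ) (n : ℕ) :
    (TT b d y n : ℝ) / (b : ℝ) ^ n = d - ∑ k ∈ range (n + 1), (rr b y k : ℝ) / (b : ℝ) ^ k := by
  have hb0 : (b : ℝ) ≠ 0 := by positivity
  induction n with
  | zero => simp [TT]
  | succ n ih =>
    rw [sum_range_succ, ← sub_sub, ← ih]
    have : (TT b d y (n + 1) : ℝ) = b * TT b d y n - rr b y (n + 1) := by
      simp only [TT]; push_cast; ring
    rw [this, pow_succ]
    field_simp

lemma summable_norm_digits {b : ℕ} (hb : 2 ≤ b) (y : ℝ) {z : ℂ} (hz : ‖z‖ < 1) :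
    Summable fun k => ‖(digit b y k : ℂ) * z ^ k‖ := by
  refine Summable.of_nonneg_of_le (fun _ => norm_nonneg _) (fun k => ?_)
    ((summable_geometric_of_lt_one (norm_nonneg z) hz).mul_left ((⌊y⌋₊ + b : ℕ) : ℝ))
  rw [norm_mul, norm_pow, Complex.norm_natCast]
  exact mul_le_mul_of_nonneg_right (by exact_mod_cast digit_le hb k) (by positivity)

section
variable {b d : ℕ} (hb : 2 ≤ b) (hd : ¬ IsSquare d)

include hb in
lemma hasSum_rr : HasSum (fun n => (rr b (Real.sqrt d) n : ℝ) / (b : ℝ) ^ n) d := by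
  have hx := hasSum_digits hb (Real.sqrt_nonneg (d : ℝ))
  have hs : Summable fun k => ‖(digit b (Real.sqrt d) k : ℝ) / (b : ℝ) ^ k‖ := by
    have : (fun k => ‖(digit b (Real.sqrt d) k : ℝ) / (b : ℝ) ^ k‖) =
        fun k => (digit b (Real.sqrt d) k : ℝ) / (b : ℝ) ^ k := by
      funext k
      rw [Real.norm_of_nonneg (by positivity)]
    rw [this]
    exact hx.summable
  have h1 := tsum_mul_tsum_eq_tsum_sum_antidiagonal_of_summable_norm hs hs
  have h2 := (summable_norm_sum_mul_antidiagonal_of_summable_norm hs hs).of_norm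
  have h3 := h2.hasSum
  rw [← h1, hx.tsum_eq, Real.mul_self_sqrt (by positivity)] at h3
  have e : (fun n => (rr b (Real.sqrt d) n : ℝ) / (b : ℝ) ^ n) =
      fun n => ∑ p ∈ antidiagonal n, (digit b (Real.sqrt d) p.1 : ℝ) / (b : ℝ) ^ p.1 *
        ((digit b (Real.sqrt d) p.2 : ℝ) / (b : ℝ) ^ p.2) := by
    funext n
    unfold rr
    push_cast
    rw [sum_div]
    refine sum_congr rfl fun p hp => ?_
    rw [HasAntidiagonal.mem_antidiagonal] at hp
    rw [← hp, pow_add]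
    field_simp
  rw [e]
  exact h3

include hb in
lemma TT_tail (n : ℕ) :
    (TT b d (Real.sqrt d) n : ℝ) / (b : ℝ) ^ n =
      ∑' k, (rr b (Real.sqrt d) (k + (n + 1)) : ℝ) / (b : ℝ) ^ (k + (n + 1)) := by
  rw [TT_eq b d hb]
  have h := (hasSum_rr (d := d) hb).summable.sum_add_tsum_nat_add (n + 1)
  rw [(hasSum_rr (d := d) hb).tsum_eq] at h
  linarith

include hb hd in
lemma TT_pos (n : ℕ) : 1 ≤ TT b d (Real.sqrt d) n := by
  have hirr : Irrational (Real.sqrt d) := by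
    rw [irrational_sqrt_natCast_iff]; exact hd
  have hbpos : (0 : ℝ) < (b : ℝ) ^ n := by positivity
  have h1 : (0 : ℝ) < (TT b d (Real.sqrt d) n : ℝ) / (b : ℝ) ^ n := by
    rw [TT_tail hb]
    obtain ⟨m, hm, hm'⟩ := exists_digit_ne hb (Real.sqrt_nonneg (d : ℝ)) hirr (n + 1)
    have hs : Summable fun k =>
        (rr b (Real.sqrt d) (k + (n + 1)) : ℝ) / (b : ℝ) ^ (k + (n + 1)) :=
      (summable_nat_add_iff (f := fun n => (rr b (Real.sqrt d) n : ℝ) / (b : ℝ) ^ n) (n + 1)).2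
        (hasSum_rr (d := d) hb).summable
    refine hs.tsum_pos (fun k => by positivity) (2 * m - (n + 1)) ?_
    have e : 2 * m - (n + 1) + (n + 1) = 2 * m := by omega
    rw [e]
    have h2 : 0 < rr b (Real.sqrt d) (2 * m) := by
      unfold rr
      have h3 : 0 < digit b (Real.sqrt d) m * digit b (Real.sqrt d) m :=
        Nat.mul_pos (Nat.pos_of_ne_zero hm') (Nat.pos_of_ne_zero hm')
      exact sum_pos' (fun _ _ => Nat.zero_le _) ⟨(m, m), by simp [HasAntidiagonal.mem_antidiagonal]; omega, h3⟩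
    positivity
  have h2 : (0 : ℝ) < (TT b d (Real.sqrt d) n : ℝ) := by
    by_contra hcon
    push Not at hcon
    exact absurd h1 (not_lt.2 (div_nonpos_of_nonpos_of_nonneg hcon hbpos.le))
  have h3 : 0 < TT b d (Real.sqrt d) n := by exact_mod_cast h2
  omega

lemma TT_parity (hb2 : Even b) (hd2 : Even d) (n : ℕ) :
    (TT b d (Real.sqrt d) n : ZMod 2) =
      if Even n then (digit b (Real.sqrt d) (n / 2) : ZMod 2) else 0 := by
  have e : ∀ u : ZMod 2, -u = u := by decide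
  rw [← rr_parity]
  cases n with
  | zero =>
    simp only [TT]
    push_cast
    rw [(ZMod.natCast_eq_zero_iff_even).2 hd2, zero_sub, e]
  | succ n =>
    simp only [TT]
    push_cast
    rw [(ZMod.natCast_eq_zero_iff_even).2 hb2, zero_mul, zero_sub, e]

include hb hd in
/-- the parity refinement -/
lemma TT_two (hb2 : Even b) (hd2 : Even d) (n : ℕ)
    (hn : ¬ (Even n ∧ Odd (digit b (Real.sqrt d) (n / 2)))) :
    2 ≤ TT b d (Real.sqrt d) n := by
  have h1 := TT_pos hb hd n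
  have h2 := TT_parity hb2 hd2 n
  have h3 : (TT b d (Real.sqrt d) n : ZMod 2) = 0 := by
    rw [h2]
    split_ifs with h
    · rw [ZMod.natCast_eq_zero_iff_even]
      by_contra hc
      exact hn ⟨h, Nat.not_even_iff_odd.1 hc⟩
    · rfl
  rw [ZMod.intCast_zmod_eq_zero_iff_dvd] at h3
  have h4 : (2 : ℤ) ∣ TT b d (Real.sqrt d) n := by exact_mod_cast h3
  omega

include hb in
/-- linear growth -/
lemma TT_le : ∃ K : ℝ, 0 ≤ K ∧ ∀ n : ℕ, (TT b d (Real.sqrt d) n : ℝ) ≤ K * (n + 1) := by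
  have hbR : (2 : ℝ) ≤ b := by exact_mod_cast hb
  set C : ℝ := (((⌊Real.sqrt d⌋₊ + b) ^ 2 : ℕ) : ℝ) with hC
  have hC0 : 0 ≤ C := by positivity
  have hs : Summable fun k : ℕ => ((k : ℝ) + 2) / (b : ℝ) ^ (k + 1) := by
    have h1 : Summable fun k : ℕ => ((k : ℝ) ^ 1 * (1 / 2 : ℝ) ^ k) :=
      summable_pow_mul_geometric_of_norm_lt_one 1 (by norm_num)
    have h2 : Summable fun k : ℕ => (1 / 2 : ℝ) ^ k :=
      summable_geometric_of_lt_one (by norm_num) (by norm_num)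
    refine Summable.of_nonneg_of_le (fun k => by positivity) (fun k => ?_)
      (h1.add (h2.mul_left 2))
    have h3 : (2 : ℝ) ^ (k + 1) ≤ (b : ℝ) ^ (k + 1) := pow_le_pow_left₀ (by norm_num) hbR _
    have h4 : (2 : ℝ) ^ k ≤ (2 : ℝ) ^ (k + 1) := pow_le_pow_right₀ (by norm_num) (by omega)
    have h5 : (1 : ℝ) / (b : ℝ) ^ (k + 1) ≤ (1 / 2 : ℝ) ^ k := by
      rw [one_div_pow]
      exact one_div_le_one_div_of_le (by positivity) (h4.trans h3)
    calc ((k : ℝ) + 2) / (b : ℝ) ^ (k + 1) = ((k : ℝ) + 2) * (1 / (b : ℝ) ^ (k + 1)) := by ring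
      _ ≤ ((k : ℝ) + 2) * (1 / 2 : ℝ) ^ k := by gcongr
      _ = (k : ℝ) ^ 1 * (1 / 2 : ℝ) ^ k + 2 * (1 / 2 : ℝ) ^ k := by ring
  set K0 : ℝ := ∑' k : ℕ, ((k : ℝ) + 2) / (b : ℝ) ^ (k + 1) with hK0
  have hK00 : 0 ≤ K0 := tsum_nonneg fun k => by positivity
  refine ⟨C * K0, by positivity, fun n => ?_⟩
  have hbpos : (0 : ℝ) < (b : ℝ) ^ n := by positivity
  have h1 := TT_tail (d := d) hb n
  rw [div_eq_iff hbpos.ne'] at h1
  rw [h1, ← tsum_mul_right]
  have hs2 : Summable fun k : ℕ => C * (n + 1) * (((k : ℝ) + 2) / (b : ℝ) ^ (k + 1)) :=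
    hs.mul_left _
  have hsr : Summable fun k =>
        (rr b (Real.sqrt d) (k + (n + 1)) : ℝ) / (b : ℝ) ^ (k + (n + 1)) :=
      (summable_nat_add_iff (f := fun n => (rr b (Real.sqrt d) n : ℝ) / (b : ℝ) ^ n) (n + 1)).2
        (hasSum_rr (d := d) hb).summable
  calc ∑' k, (rr b (Real.sqrt d) (k + (n + 1)) : ℝ) / (b : ℝ) ^ (k + (n + 1)) * (b : ℝ) ^ n
      ≤ ∑' k : ℕ, C * (n + 1) * (((k : ℝ) + 2) / (b : ℝ) ^ (k + 1)) := by
        refine (hsr.mul_right _).tsum_le_tsum (fun k => ?_) hs2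
        have h2 : (rr b (Real.sqrt d) (k + (n + 1)) : ℝ) ≤ (k + (n + 1) + 1) * C := by
          have := rr_le hb (Real.sqrt d) (k + (n + 1))
          rw [hC]
          exact_mod_cast this
        have e : (b : ℝ) ^ (k + (n + 1)) = (b : ℝ) ^ (k + 1) * (b : ℝ) ^ n := by
          rw [← pow_add]; congr 1; omega
        rw [e]
        have hb1 : (0 : ℝ) < (b : ℝ) ^ (k + 1) := by positivity
        have e2 : (rr b (Real.sqrt d) (k + (n + 1)) : ℝ) / ((b : ℝ) ^ (k + 1) * (b : ℝ) ^ n) *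
            (b : ℝ) ^ n = (rr b (Real.sqrt d) (k + (n + 1)) : ℝ) / (b : ℝ) ^ (k + 1) := by
          field_simp
        rw [e2, mul_div_assoc', div_le_div_iff_of_pos_right hb1]
        refine h2.trans ?_
        have h3 : ((k : ℝ) + (n + 1) + 1) ≤ (n + 1) * (k + 2) := by
          have : (0 : ℝ) ≤ (n : ℝ) * k := by positivity
          nlinarith [(Nat.cast_nonneg n : (0 : ℝ) ≤ n)]
        nlinarith
    _ = C * K0 * (n + 1) := by
        rw [tsum_mul_left, hK0]; ring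

end

/-! ### the power series -/

lemma summable_digits {b : ℕ} (hb : 2 ≤ b) (y : ℝ) {r : ℝ} (h0 : 0 ≤ r) (h1 : r < 1) :
    Summable fun k => (digit b y k : ℝ) * r ^ k := by
  refine Summable.of_nonneg_of_le (fun _ => by positivity) (fun k => ?_)
    ((summable_geometric_of_lt_one h0 h1).mul_left ((⌊y⌋₊ + b : ℕ) : ℝ))
  exact mul_le_mul_of_nonneg_right (by exact_mod_cast digit_le hb k) (by positivity)

lemma SS_ofReal (b : ℕ) (y r : ℝ) : SS b y (r : ℂ) = (ss b y r : ℂ) := by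
  unfold SS ss
  rw [Complex.ofReal_tsum]
  push_cast
  rfl

lemma hasSum_sq {b : ℕ} (hb : 2 ≤ b) (y : ℝ) {z : ℂ} (hz : ‖z‖ < 1) :
    HasSum (fun n => (rr b y n : ℂ) * z ^ n) (SS b y z ^ 2) := by
  have hs := summable_norm_digits hb y hz
  have h1 := tsum_mul_tsum_eq_tsum_sum_antidiagonal_of_summable_norm hs hs
  have h2 := (summable_norm_sum_mul_antidiagonal_of_summable_norm hs hs).of_norm
  have h3 := h2.hasSum
  rw [← h1] at h3
  have e : (fun n => (rr b y n : ℂ) * z ^ n) =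
      fun n => ∑ p ∈ antidiagonal n, (digit b y p.1 : ℂ) * z ^ p.1 *
        ((digit b y p.2 : ℂ) * z ^ p.2) := by
    funext n
    unfold rr
    push_cast
    rw [sum_mul]
    refine sum_congr rfl fun p hp => ?_
    rw [HasAntidiagonal.mem_antidiagonal] at hp
    rw [← hp, pow_add]
    ring
  rw [e, sq]
  exact h3

section
variable {b d : ℕ} (hb : 2 ≤ b) (hd : ¬ IsSquare d)

include hb hd in
lemma gg_le_TT (n : ℕ) : (gg b d (Real.sqrt d) n : ℤ) ≤ TT b d (Real.sqrt d) n := by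
  unfold gg
  split_ifs with h
  · exact_mod_cast TT_two hb hd h.1 h.2.1 n h.2.2
  · exact_mod_cast TT_pos hb hd n

lemma gg_le_two (n : ℕ) (y : ℝ) : gg b d y n ≤ 2 := by
  unfold gg; split_ifs <;> omega

lemma one_le_gg (n : ℕ) (y : ℝ) : 1 ≤ gg b d y n := by
  unfold gg; split_ifs <;> omega

include hb hd in
lemma summable_TT {r : ℝ} (h0 : 0 ≤ r) (h1 : r < 1) :
    Summable fun n => (TT b d (Real.sqrt d) n : ℝ) * r ^ n := by
  obtain ⟨K, hK0, hK⟩ := TT_le (d := d) hb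
  have ha : Summable fun k : ℕ => ((k : ℝ) ^ 1 * r ^ k) :=
    summable_pow_mul_geometric_of_norm_lt_one 1 (by rwa [Real.norm_of_nonneg h0])
  have hb' : Summable fun k : ℕ => r ^ k := summable_geometric_of_lt_one h0 h1
  refine Summable.of_nonneg_of_le (fun n => ?_) (fun n => ?_) ((ha.add hb').mul_left K)
  · have := TT_pos hb hd n
    have h2 : (1 : ℝ) ≤ (TT b d (Real.sqrt d) n : ℝ) := by exact_mod_cast this
    positivity
  · calc (TT b d (Real.sqrt d) n : ℝ) * r ^ n ≤ K * (n + 1) * r ^ n :=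
          mul_le_mul_of_nonneg_right (hK n) (by positivity)
      _ = K * ((n : ℝ) ^ 1 * r ^ n + r ^ n) := by ring

include hb hd in
lemma summable_norm_TT {z : ℂ} (hz : ‖z‖ < 1) :
    Summable fun n => ‖(TT b d (Real.sqrt d) n : ℂ) * z ^ n‖ := by
  refine (summable_TT hb hd (norm_nonneg z) hz).congr fun n => ?_
  rw [norm_mul, norm_pow, Complex.norm_intCast]
  have := TT_pos hb hd n
  have h2 : (1 : ℝ) ≤ (TT b d (Real.sqrt d) n : ℝ) := by exact_mod_cast this
  rw [abs_of_nonneg (by linarith)]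

include hb hd in
/-- `F(z)² - d = (b z - 1) ∑ T(n) zⁿ` -/
lemma identity {z : ℂ} (hz : ‖z‖ < 1) :
    SS b (Real.sqrt d) z ^ 2 - d =
      (b * z - 1) * ∑' n, (TT b d (Real.sqrt d) n : ℂ) * z ^ n := by
  have hT := (summable_norm_TT hb hd hz).of_norm
  set F := ∑' n, (TT b d (Real.sqrt d) n : ℂ) * z ^ n with hF
  have h1 : HasSum (fun n => (TT b d (Real.sqrt d) (n + 1) : ℂ) * z ^ (n + 1))
      (F - TT b d (Real.sqrt d) 0) := by
    have := (hasSum_nat_add_iff' 1).2 hT.hasSum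
    simpa using this
  have h2 : HasSum (fun n => (b * z) * ((TT b d (Real.sqrt d) n : ℂ) * z ^ n)) ((b * z) * F) :=
    hT.hasSum.mul_left _
  have h3 : HasSum (fun n => (rr b (Real.sqrt d) (n + 1) : ℂ) * z ^ (n + 1))
      (SS b (Real.sqrt d) z ^ 2 - rr b (Real.sqrt d) 0) := by
    have := (hasSum_nat_add_iff' 1).2 (hasSum_sq hb (Real.sqrt d) hz)
    simpa using this
  have h4 := h2.sub h1
  have e : (fun n => (b * z) * ((TT b d (Real.sqrt d) n : ℂ) * z ^ n) -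
      (TT b d (Real.sqrt d) (n + 1) : ℂ) * z ^ (n + 1)) =
      fun n => (rr b (Real.sqrt d) (n + 1) : ℂ) * z ^ (n + 1) := by
    funext n
    have : (TT b d (Real.sqrt d) (n + 1) : ℂ) =
        b * TT b d (Real.sqrt d) n - rr b (Real.sqrt d) (n + 1) := by
      simp only [TT]; push_cast; ring
    rw [this, pow_succ]
    ring
  rw [e] at h4
  have h5 := h4.unique h3
  have h6 : (TT b d (Real.sqrt d) 0 : ℂ) = d - rr b (Real.sqrt d) 0 := by
    simp only [TT]; push_cast; ring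
  rw [h6] at h5
  linear_combination -h5

include hb hd in
lemma identity_real {r : ℝ} (h0 : 0 ≤ r) (h1 : r < 1) :
    ss b (Real.sqrt d) r ^ 2 - d =
      (b * r - 1) * ∑' n, (TT b d (Real.sqrt d) n : ℝ) * r ^ n := by
  have hz : ‖(r : ℂ)‖ < 1 := by
    rw [Complex.norm_real, Real.norm_of_nonneg h0]; exact h1
  have h := identity hb hd hz
  rw [SS_ofReal] at h
  have e : ∑' n, (TT b d (Real.sqrt d) n : ℂ) * (r : ℂ) ^ n =
      ((∑' n, (TT b d (Real.sqrt d) n : ℝ) * r ^ n : ℝ) : ℂ) := by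
    rw [Complex.ofReal_tsum]; push_cast; rfl
  rw [e] at h
  exact_mod_cast h

lemma summable_gg (y : ℝ) {r : ℝ} (h0 : 0 ≤ r) (h1 : r < 1) :
    Summable fun n => (gg b d y n : ℝ) * r ^ n := by
  refine Summable.of_nonneg_of_le (fun n => by positivity) (fun n => ?_)
    ((summable_geometric_of_lt_one h0 h1).mul_left 2)
  exact mul_le_mul_of_nonneg_right (by exact_mod_cast gg_le_two n y) (by positivity)

lemma summable_norm_gg (y : ℝ) {z : ℂ} (hz : ‖z‖ < 1) :
    Summable fun n => ‖(gg b d y n : ℂ) * z ^ n‖ := by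
  refine (summable_gg (b := b) (d := d) y (norm_nonneg z) hz).congr fun n => ?_
  rw [norm_mul, norm_pow, Complex.norm_natCast]

include hb hd in
/-- **the exact inequality** -/
theorem main_ineq {z : ℂ} (hz : ‖z‖ < 1) (hz' : 1 < b * ‖z‖) :
    ‖SS b (Real.sqrt d) z ^ 2 - d -
        (b * z - 1) * ∑' n, (gg b d (Real.sqrt d) n : ℂ) * z ^ n‖ ≤
      ‖(b : ℂ) * z - 1‖ * ((ss b (Real.sqrt d) ‖z‖ ^ 2 - d) / (b * ‖z‖ - 1) -
        ∑' n, (gg b d (Real.sqrt d) n : ℝ) * ‖z‖ ^ n) := by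
  have hT := (summable_norm_TT hb hd hz).of_norm
  have hG := (summable_norm_gg (b := b) (d := d) (Real.sqrt d) hz).of_norm
  have hTr := summable_TT hb hd (norm_nonneg z) hz
  have hGr := summable_gg (b := b) (d := d) (Real.sqrt d) (norm_nonneg z) hz
  rw [identity hb hd hz, ← mul_sub, norm_mul, ← hT.tsum_sub hG]
  refine mul_le_mul_of_nonneg_left ?_ (norm_nonneg _)
  have e1 : (ss b (Real.sqrt d) ‖z‖ ^ 2 - d) / (b * ‖z‖ - 1) =
      ∑' n, (TT b d (Real.sqrt d) n : ℝ) * ‖z‖ ^ n := by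
    rw [identity_real hb hd (norm_nonneg z) hz, mul_div_cancel_left₀]
    linarith
  rw [e1, ← hTr.tsum_sub hGr]
  have hn : ∀ n, ‖(TT b d (Real.sqrt d) n : ℂ) * z ^ n - (gg b d (Real.sqrt d) n : ℂ) * z ^ n‖ =
      (TT b d (Real.sqrt d) n : ℝ) * ‖z‖ ^ n - (gg b d (Real.sqrt d) n : ℝ) * ‖z‖ ^ n := by
    intro n
    rw [← sub_mul, norm_mul, norm_pow, ← sub_mul]
    congr 1
    have h1 : (gg b d (Real.sqrt d) n : ℝ) ≤ TT b d (Real.sqrt d) n := by
      exact_mod_cast gg_le_TT hb hd n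
    have h2 : (TT b d (Real.sqrt d) n : ℂ) - (gg b d (Real.sqrt d) n : ℂ) =
        (((TT b d (Real.sqrt d) n : ℝ) - (gg b d (Real.sqrt d) n : ℝ) : ℝ) : ℂ) := by
      push_cast; ring
    rw [h2, Complex.norm_real, Real.norm_of_nonneg (by linarith)]
  have h := norm_tsum_le_tsum_norm (f := fun n => (TT b d (Real.sqrt d) n : ℂ) * z ^ n -
      (gg b d (Real.sqrt d) n : ℂ) * z ^ n) (by
    simp_rw [hn]
    exact hTr.sub hGr)
  simp_rw [hn] at h
  exact h

end

/-! ### asymptotic form -/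

/-- the exceptional places -/
noncomputable def ee (b d : ℕ) (y : ℝ) (n : ℕ) : ℕ :=
  if Even b ∧ Even d ∧ Even n ∧ Odd (digit b y (n / 2)) then 1 else 0

lemma gg_add_ee (b d : ℕ) (y : ℝ) (n : ℕ) : gg b d y n + ee b d y n = g0 b d := by
  unfold gg ee g0
  by_cases h1 : Even b <;> by_cases h2 : Even d <;>
    by_cases h3 : Even n <;> by_cases h4 : Odd (digit b y (n / 2)) <;> simp [h1, h2, h3, h4]

lemma g0_le (b d : ℕ) : g0 b d ≤ 2 := by unfold g0; split_ifs <;> omega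

lemma one_le_g0 (b d : ℕ) : 1 ≤ g0 b d := by unfold g0; split_ifs <;> omega

lemma summable_ee (b d : ℕ) (y : ℝ) {r : ℝ} (h0 : 0 ≤ r) (h1 : r < 1) :
    Summable fun n => (ee b d y n : ℝ) * r ^ n := by
  refine Summable.of_nonneg_of_le (fun n => by positivity) (fun n => ?_)
    (summable_geometric_of_lt_one h0 h1)
  have : (ee b d y n : ℝ) ≤ 1 := by
    unfold ee; split_ifs <;> simp
  calc (ee b d y n : ℝ) * r ^ n ≤ 1 * r ^ n := mul_le_mul_of_nonneg_right this (by positivity)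
    _ = r ^ n := one_mul _

lemma tsum_ee_le {b : ℕ} (hb : 2 ≤ b) (d : ℕ) (y : ℝ) {r : ℝ} (h0 : 0 ≤ r) (h1 : r < 1) :
    ∑' n, (ee b d y n : ℝ) * r ^ n ≤ ss b y r := by
  have hinj : Function.Injective (fun k : ℕ => 2 * k) := fun a b h => by simpa using h
  have hsupp : Function.support (fun n => (ee b d y n : ℝ) * r ^ n) ⊆
      Set.range (fun k : ℕ => 2 * k) := by
    intro n hn
    rw [Function.mem_support] at hn
    have : ee b d y n ≠ 0 := by
      intro h; rw [h] at hn; simp at hn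
    unfold ee at this
    have h2 : Even n := by
      by_contra hc
      apply this
      rw [if_neg]
      tauto
    obtain ⟨k, hk⟩ := h2
    exact ⟨k, by simp only; omega⟩
  rw [← hinj.tsum_eq hsupp]
  have hs1 : Summable fun k : ℕ => (ee b d y (2 * k) : ℝ) * r ^ (2 * k) :=
    (summable_ee b d y h0 h1).comp_injective hinj
  refine hs1.tsum_le_tsum (fun k => ?_) (summable_digits hb y h0 h1)
  have h2 : (2 * k) / 2 = k := by omega
  have h3 : (ee b d y (2 * k) : ℝ) ≤ digit b y k := by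
    unfold ee
    rw [h2]
    split_ifs with h
    · have := h.2.2.2.pos
      exact_mod_cast this
    · simp
  have h4 : r ^ (2 * k) ≤ r ^ k := pow_le_pow_of_le_one h0 h1.le (by omega)
  exact mul_le_mul h3 h4 (by positivity) (by positivity)

lemma tsum_gg_real (b d : ℕ) (y : ℝ) {r : ℝ} (h0 : 0 ≤ r) (h1 : r < 1) :
    ∑' n, (gg b d y n : ℝ) * r ^ n =
      (g0 b d : ℝ) / (1 - r) - ∑' n, (ee b d y n : ℝ) * r ^ n := by
  have hg := summable_gg (b := b) (d := d) y h0 h1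
  have he := summable_ee b d y h0 h1
  rw [eq_sub_iff_add_eq, ← hg.tsum_add he]
  have : (fun n => (gg b d y n : ℝ) * r ^ n + (ee b d y n : ℝ) * r ^ n) =
      fun n => (g0 b d : ℝ) * r ^ n := by
    funext n
    rw [← gg_add_ee b d y n]
    push_cast
    ring
  rw [this, tsum_mul_left, tsum_geometric_of_lt_one h0 h1, div_eq_mul_inv]

lemma tsum_gg_ge {b : ℕ} (hb : 2 ≤ b) (d : ℕ) (y : ℝ) {r : ℝ} (h0 : 0 ≤ r) (h1 : r < 1) :
    (g0 b d : ℝ) / (1 - r) - ss b y r ≤ ∑' n, (gg b d y n : ℝ) * r ^ n := by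
  rw [tsum_gg_real b d y h0 h1]
  linarith [tsum_ee_le hb d y h0 h1]

lemma norm_tsum_gg {b : ℕ} (hb : 2 ≤ b) (d : ℕ) (y : ℝ) {z : ℂ} (hz : ‖z‖ < 1) :
    ‖∑' n, (gg b d y n : ℂ) * z ^ n‖ ≤ (g0 b d : ℝ) / ‖1 - z‖ + ss b y ‖z‖ := by
  have hg := (summable_norm_gg (b := b) (d := d) y hz).of_norm
  have hen : ∀ n, ‖(ee b d y n : ℂ) * z ^ n‖ = (ee b d y n : ℝ) * ‖z‖ ^ n := by
    intro n
    rw [norm_mul, norm_pow, Complex.norm_natCast]
  have hes : Summable fun n => ‖(ee b d y n : ℂ) * z ^ n‖ := by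
    simp_rw [hen]
    exact summable_ee b d y (norm_nonneg z) hz
  have he := hes.of_norm
  have h1 : ∑' n, (gg b d y n : ℂ) * z ^ n + ∑' n, (ee b d y n : ℂ) * z ^ n =
      (g0 b d : ℂ) * (1 - z)⁻¹ := by
    rw [← hg.tsum_add he, ← tsum_geometric_of_norm_lt_one hz, ← tsum_mul_left]
    congr 1
    funext n
    rw [← gg_add_ee b d y n]
    push_cast
    ring
  have h2 : ∑' n, (gg b d y n : ℂ) * z ^ n =
      (g0 b d : ℂ) * (1 - z)⁻¹ - ∑' n, (ee b d y n : ℂ) * z ^ n := by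
    rw [← h1]; ring
  rw [h2]
  refine (norm_sub_le _ _).trans ?_
  have h3 : ‖(g0 b d : ℂ) * (1 - z)⁻¹‖ = (g0 b d : ℝ) / ‖1 - z‖ := by
    rw [norm_mul, Complex.norm_natCast, norm_inv, div_eq_mul_inv]
  have h4 : ‖∑' n, (ee b d y n : ℂ) * z ^ n‖ ≤ ss b y ‖z‖ := by
    refine (norm_tsum_le_tsum_norm hes).trans ?_
    simp_rw [hen]
    exact tsum_ee_le hb d y (norm_nonneg z) hz
  rw [h3]
  linarith

lemma ss_nonneg (b : ℕ) (y : ℝ) {r : ℝ} (h0 : 0 ≤ r) : 0 ≤ ss b y r :=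
  tsum_nonneg fun k => by positivity

section
variable {b d : ℕ} (hb : 2 ≤ b) (hd : ¬ IsSquare d)

include hb hd in
/-- the lower bound of Bailey, Borwein, Crandall and Pomerance -/
lemma lower {r : ℝ} (h0 : 0 ≤ r) (h1 : r < 1) (h2 : 1 ≤ b * r) :
    (b * r - 1) * ((g0 b d : ℝ) / (1 - r) - ss b (Real.sqrt d) r) ≤
      ss b (Real.sqrt d) r ^ 2 - d := by
  rw [identity_real hb hd h0 h1]
  refine mul_le_mul_of_nonneg_left ?_ (by linarith)
  refine (tsum_gg_ge hb d (Real.sqrt d) h0 h1).trans ?_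
  refine (summable_gg (b := b) (d := d) (Real.sqrt d) h0 h1).tsum_le_tsum (fun n => ?_)
    (summable_TT hb hd h0 h1)
  refine mul_le_mul_of_nonneg_right ?_ (by positivity)
  exact_mod_cast gg_le_TT hb hd n

include hb hd in
lemma lower_one {r : ℝ} (h0 : 0 ≤ r) (h1 : r < 1) (h2 : 1 ≤ b * r) :
    (b * r - 1) / (1 - r) ≤ ss b (Real.sqrt d) r ^ 2 := by
  have h3 : (b * r - 1) * (1 - r)⁻¹ ≤ ss b (Real.sqrt d) r ^ 2 - d := by
    rw [identity_real hb hd h0 h1]
    refine mul_le_mul_of_nonneg_left ?_ (by linarith)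
    rw [← tsum_geometric_of_lt_one h0 h1]
    refine (summable_geometric_of_lt_one h0 h1).tsum_le_tsum (fun n => ?_)
      (summable_TT hb hd h0 h1)
    have : (1 : ℝ) ≤ TT b d (Real.sqrt d) n := by exact_mod_cast TT_pos hb hd n
    calc r ^ n = 1 * r ^ n := (one_mul _).symm
      _ ≤ (TT b d (Real.sqrt d) n : ℝ) * r ^ n :=
        mul_le_mul_of_nonneg_right this (by positivity)
  rw [div_eq_mul_inv]
  have : (0 : ℝ) ≤ d := Nat.cast_nonneg d
  linarith

include hb hd in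
lemma inv_le {r : ℝ} (h0 : 3 / 4 ≤ r) (h1 : r < 1) :
    1 / (1 - r) ≤ 2 * ss b (Real.sqrt d) r ^ 2 := by
  have hbR : (2 : ℝ) ≤ b := by exact_mod_cast hb
  have h2 : 3 / 2 ≤ b * r := by nlinarith
  have h3 := lower_one hb hd (by linarith) h1 (by linarith)
  have h4 : (1 / 2) / (1 - r) ≤ (b * r - 1) / (1 - r) :=
    div_le_div_of_nonneg_right (by linarith) (by linarith)
  have h5 : 1 / (1 - r) = 2 * ((1 / 2) / (1 - r)) := by ring
  rw [h5]
  linarith

include hb hd in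
/-- elementary facts about `q = √(1 - r)` and `s = s(r)` -/
lemma facts {r : ℝ} (h0 : 3 / 4 ≤ r) (h1 : r < 1) :
    1 ≤ Real.sqrt (1 - r) * ss b (Real.sqrt d) r ^ 2 ∧
    ss b (Real.sqrt d) r ≤ 3 / 2 * (Real.sqrt (1 - r) * ss b (Real.sqrt d) r ^ 2) ∧
    (1 - r) * ss b (Real.sqrt d) r ^ 2 ≤ 1 / 2 * (Real.sqrt (1 - r) * ss b (Real.sqrt d) r ^ 2) := by
  have hs := ss_nonneg b (Real.sqrt d) (by linarith : (0 : ℝ) ≤ r)
  set s := ss b (Real.sqrt d) r with hs'
  set q := Real.sqrt (1 - r) with hq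
  have hq0 : 0 < q := Real.sqrt_pos.2 (by linarith)
  have hq2 : q ^ 2 = 1 - r := Real.sq_sqrt (by linarith)
  have hq1 : q ≤ 1 / 2 := by
    by_contra hc
    push Not at hc
    nlinarith
  have h2 : 1 / (1 - r) ≤ 2 * s ^ 2 := inv_le hb hd h0 h1
  have h3 : 1 ≤ 2 * q ^ 2 * s ^ 2 := by
    rw [div_le_iff₀ (by linarith)] at h2
    rw [hq2]
    linarith
  have h4 : 1 ≤ q * s ^ 2 := by nlinarith [sq_nonneg s, mul_nonneg hq0.le (sq_nonneg s)]
  have h5 : 2 / 3 ≤ q * s := by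
    have : (q * s) ^ 2 ≥ 1 / 2 := by nlinarith
    by_contra hc
    push Not at hc
    have h6 : 0 ≤ q * s := by positivity
    nlinarith
  refine ⟨h4, ?_, ?_⟩
  · have : s * (2 / 3) ≤ s * (q * s) := mul_le_mul_of_nonneg_left h5 hs
    nlinarith
  · rw [← hq2]
    nlinarith [mul_nonneg hq0.le (sq_nonneg s)]

include hb hd in
lemma EE_ge {r : ℝ} (h0 : 3 / 4 ≤ r) (h1 : r < 1) :
    -(4 * b * (Real.sqrt (1 - r) * ss b (Real.sqrt d) r ^ 2)) ≤ EE b d r := by
  have hbR : (2 : ℝ) ≤ b := by exact_mod_cast hb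
  obtain ⟨f1, f2, f3⟩ := facts hb hd h0 h1
  have hs := ss_nonneg b (Real.sqrt d) (by linarith : (0 : ℝ) ≤ r)
  have h2 := lower hb hd (by linarith : (0 : ℝ) ≤ r) h1 (by nlinarith)
  unfold EE
  set s := ss b (Real.sqrt d) r with hs'
  set Q := Real.sqrt (1 - r) * s ^ 2 with hQ
  have hd0 : (0 : ℝ) ≤ d := Nat.cast_nonneg d
  have hg : (g0 b d : ℝ) ≤ 2 := by exact_mod_cast g0_le b d
  have hg0 : (0 : ℝ) ≤ g0 b d := Nat.cast_nonneg _
  have hr1 : 0 < 1 - r := by linarith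
  have e1 : (b * r - 1) * ((g0 b d : ℝ) / (1 - r) - s) =
      g0 b d * (b - 1) / (1 - r) - b * g0 b d - (b * r - 1) * s := by
    field_simp
    ring
  rw [e1] at h2
  have h3 : (b * r - 1) * s ≤ b * s := mul_le_mul_of_nonneg_right (by nlinarith) hs
  have h4 : (b : ℝ) * g0 b d ≤ 2 * b * Q := by nlinarith
  have h5 : b * s ≤ b * (3 / 2 * Q) := mul_le_mul_of_nonneg_left f2 (by linarith)
  have h6 : 0 ≤ b * Q := by positivity
  linarith

include hb hd in
/-- **the exponential sums** -/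
theorem circle {ζ : ℂ} (hζ : ‖ζ‖ = 1) (hζ1 : ζ ≠ 1) {r : ℝ} (h0 : 3 / 4 ≤ r) (h1 : r < 1) :
    ‖SS b (Real.sqrt d) (r * ζ)‖ ^ 2 ≤ ‖(b : ℂ) * ζ - 1‖ / (b - 1) * EE b d r +
      (19 * b + 2 * d + 14) / ‖1 - ζ‖ * (Real.sqrt (1 - r) * ss b (Real.sqrt d) r ^ 2) := by
  have hbR : (2 : ℝ) ≤ b := by exact_mod_cast hb
  obtain ⟨f1, f2, f3⟩ := facts hb hd h0 h1
  have hs := ss_nonneg b (Real.sqrt d) (by linarith : (0 : ℝ) ≤ r)
  have hinv := inv_le hb hd h0 h1
  have hzr : ‖(r : ℂ) * ζ‖ = r := by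
    rw [norm_mul, hζ, mul_one, Complex.norm_real, Real.norm_of_nonneg (by linarith)]
  have hz : ‖(r : ℂ) * ζ‖ < 1 := by rw [hzr]; exact h1
  have hz' : 1 < b * ‖(r : ℂ) * ζ‖ := by rw [hzr]; nlinarith
  have hmain := main_ineq hb hd hz hz'
  have hG := norm_tsum_gg hb d (Real.sqrt d) hz
  have hGr := tsum_gg_ge hb d (Real.sqrt d) (by linarith : (0 : ℝ) ≤ r) h1
  rw [hzr] at hmain hG
  unfold EE
  set s := ss b (Real.sqrt d) r with hs'
  set Q := Real.sqrt (1 - r) * s ^ 2 with hQ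
  set z : ℂ := (r : ℂ) * ζ with hzdef
  set S := SS b (Real.sqrt d) z with hS
  set Gz := ∑' n, (gg b d (Real.sqrt d) n : ℂ) * z ^ n with hGz
  set Gr := ∑' n, (gg b d (Real.sqrt d) n : ℝ) * r ^ n with hGr'
  set g : ℝ := (g0 b d : ℝ) with hg'
  have hd0 : (0 : ℝ) ≤ d := Nat.cast_nonneg d
  have hg : g ≤ 2 := by rw [hg']; exact_mod_cast g0_le b d
  have hg0 : (0 : ℝ) ≤ g := Nat.cast_nonneg _
  have hr1 : 0 < 1 - r := by linarith
  have hQ0 : 0 ≤ Q := by positivity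
  have hs2 : 0 ≤ s ^ 2 := sq_nonneg s
  -- distances
  set w := ‖1 - ζ‖ with hw
  have hw0 : 0 < w := norm_pos_iff.2 (sub_ne_zero.2 (Ne.symm hζ1))
  have hw2 : w ≤ 2 := by
    calc w ≤ ‖(1 : ℂ)‖ + ‖ζ‖ := norm_sub_le _ _
      _ = 2 := by rw [norm_one, hζ]; norm_num
  have hdiff : ‖z - ζ‖ = 1 - r := by
    have : z - ζ = ((r - 1 : ℝ) : ℂ) * ζ := by rw [hzdef]; push_cast; ring
    rw [this, norm_mul, hζ, mul_one, Complex.norm_real, Real.norm_eq_abs, abs_of_neg (by linarith)]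
    ring
  have h1z : w / 2 ≤ ‖1 - z‖ := by
    have h2 : w ≤ ‖1 - z‖ + ‖z - ζ‖ := by
      rw [hw]
      have : (1 : ℂ) - ζ = (1 - z) + (z - ζ) := by ring
      rw [this]
      exact norm_add_le _ _
    have h3 : 1 - r ≤ ‖1 - z‖ := by
      have : ‖(1 : ℂ)‖ - ‖z‖ ≤ ‖1 - z‖ := norm_sub_norm_le _ _
      rw [norm_one, hzr] at this
      exact this
    rw [hdiff] at h2
    linarith
  set N := ‖(b : ℂ) * z - 1‖ with hN
  set N1 := ‖(b : ℂ) * ζ - 1‖ with hN1
  have hNN : N ≤ N1 + b * (1 - r) := by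
    have : (b : ℂ) * z - 1 = ((b : ℂ) * ζ - 1) + b * (z - ζ) := by ring
    rw [hN, this]
    refine (norm_add_le _ _).trans ?_
    rw [norm_mul, Complex.norm_natCast, hdiff]
  have hNN' : N1 ≤ N + b * (1 - r) := by
    have : (b : ℂ) * ζ - 1 = ((b : ℂ) * z - 1) - b * (z - ζ) := by ring
    rw [hN1, this]
    refine (norm_sub_le _ _).trans ?_
    rw [norm_mul, Complex.norm_natCast, hdiff]
  have hNb : N ≤ b + 1 := by
    rw [hN]
    refine (norm_sub_le _ _).trans ?_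
    rw [norm_mul, Complex.norm_natCast, hzr, norm_one]
    have := mul_le_mul_of_nonneg_left h1.le (by linarith : (0 : ℝ) ≤ b)
    linarith
  have hN0 : 0 ≤ N := norm_nonneg _
  have hN10 : 0 ≤ N1 := norm_nonneg _
  -- step 1
  have hstep1 : ‖S‖ ^ 2 ≤ N * ((s ^ 2 - d) / (b * r - 1) - Gr) + d + N * ‖Gz‖ := by
    have e : S ^ 2 = (S ^ 2 - d - (b * z - 1) * Gz) + (d + (b * z - 1) * Gz) := by ring
    rw [← norm_pow, e]
    refine (norm_add_le _ _).trans ?_
    have h2 : ‖(d : ℂ) + (b * z - 1) * Gz‖ ≤ d + N * ‖Gz‖ := by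
      refine (norm_add_le _ _).trans ?_
      rw [norm_mul, Complex.norm_natCast]
    linarith
  -- step 2
  have hbr : 1 / 2 ≤ (b : ℝ) * r - 1 := by
    have := mul_le_mul hbR h0 (by norm_num) (by linarith)
    linarith
  set W := s ^ 2 / (b * r - 1) - g / (1 - r) with hW
  have hstep2 : (s ^ 2 - d) / (b * r - 1) - Gr ≤ W + s := by
    have : (s ^ 2 - d) / (b * r - 1) ≤ s ^ 2 / (b * r - 1) :=
      div_le_div_of_nonneg_right (by linarith) (by linarith)
    rw [hW]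
    linarith
  set E' := s ^ 2 / ((b : ℝ) - 1) - g / (1 - r) with hE'
  have hWE : W - E' ≤ 4 * ((1 - r) * s ^ 2) := by
    have e : W - E' = s ^ 2 * (b * (1 - r)) / ((b * r - 1) * (b - 1)) := by
      rw [hW, hE']
      field_simp [(by linarith : (b : ℝ) * r - 1 ≠ 0), (by linarith : (b : ℝ) - 1 ≠ 0)]
      ring
    have h3' : 1 / 2 * ((b : ℝ) / 2) ≤ (b * r - 1) * (b - 1) :=
      mul_le_mul hbr (by linarith) (by linarith) (by linarith)
    rw [e, div_le_iff₀ (by linarith)]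
    have h4 : 0 ≤ (1 - r) * s ^ 2 := by positivity
    have h5 := mul_le_mul_of_nonneg_left h3' h4
    calc s ^ 2 * (b * (1 - r)) = 4 * ((1 - r) * s ^ 2 * (1 / 2 * ((b : ℝ) / 2))) := by ring
      _ ≤ 4 * ((1 - r) * s ^ 2 * ((b * r - 1) * (b - 1))) := by linarith
      _ = 4 * ((1 - r) * s ^ 2) * ((b * r - 1) * (b - 1)) := by ring
  have hWE0 : 0 ≤ W - E' := by
    have e : W - E' = s ^ 2 * (b * (1 - r)) / ((b * r - 1) * (b - 1)) := by
      rw [hW, hE']
      field_simp [(by linarith : (b : ℝ) * r - 1 ≠ 0), (by linarith : (b : ℝ) - 1 ≠ 0)]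
      ring
    rw [e]
    have : 0 < (b * r - 1) * ((b : ℝ) - 1) := mul_pos (by linarith) (by linarith)
    positivity
  have hEabs : |E'| ≤ 5 * s ^ 2 := by
    rw [hE', abs_le]
    have h3 : g / (1 - r) ≤ 4 * s ^ 2 := by
      have : g / (1 - r) = g * (1 / (1 - r)) := by ring
      rw [this]
      have h5 : 0 ≤ 1 / (1 - r) := by positivity
      have h6 := mul_le_mul hg hinv h5 (by norm_num)
      linarith
    have h4 : s ^ 2 / ((b : ℝ) - 1) ≤ s ^ 2 := div_le_self hs2 (by linarith)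
    have h5 : 0 ≤ s ^ 2 / ((b : ℝ) - 1) := div_nonneg hs2 (by linarith)
    have h6 : 0 ≤ g / (1 - r) := by positivity
    constructor <;> linarith
  -- step 3
  have hstep3 : N * E' ≤ N1 * E' + b * (1 - r) * (5 * s ^ 2) := by
    have h3 : (N - N1) * E' ≤ |N - N1| * |E'| := by
      rw [← abs_mul]; exact le_abs_self _
    have h4 : |N - N1| ≤ b * (1 - r) := by
      rw [abs_le]; constructor <;> linarith
    have h5 : |N - N1| * |E'| ≤ b * (1 - r) * (5 * s ^ 2) :=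
      mul_le_mul h4 hEabs (abs_nonneg _) (by positivity)
    linarith
  have hstep4 : N * (W - E') ≤ (b + 1) * (4 * ((1 - r) * s ^ 2)) :=
    mul_le_mul hNb hWE hWE0 (by linarith)
  have hstep5 : N * ((s ^ 2 - d) / (b * r - 1) - Gr) ≤ N * (W + s) :=
    mul_le_mul_of_nonneg_left hstep2 hN0
  have hstep6 : N * s ≤ (b + 1) * s := mul_le_mul_of_nonneg_right hNb hs
  have hstep7 : N * ‖Gz‖ ≤ (b + 1) * (4 / w + s) := by
    refine mul_le_mul hNb (hG.trans ?_) (norm_nonneg _) (by linarith)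
    have : g / ‖1 - z‖ ≤ 4 / w := by
      rw [div_le_div_iff₀ (by linarith) hw0]
      have h6 := mul_le_mul hg le_rfl hw0.le (by norm_num)
      linarith
    linarith
  have hE2 : N1 * E' = N1 / (b - 1) * (s ^ 2 - g * (b - 1) / (1 - r)) := by
    rw [hE']
    field_simp [(by linarith : (b : ℝ) - 1 ≠ 0)]
  rw [← hE2]
  -- errors
  have he1 : b * (1 - r) * (5 * s ^ 2) ≤ 5 / 2 * b * Q := by
    have h3 := mul_le_mul_of_nonneg_left f3 (by linarith : (0 : ℝ) ≤ 5 * b)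
    linarith
  have he2 : (b + 1) * (4 * ((1 - r) * s ^ 2)) ≤ 2 * (b + 1) * Q := by
    have h3 := mul_le_mul_of_nonneg_left f3 (by linarith : (0 : ℝ) ≤ 4 * (b + 1))
    linarith
  have he3 : (b + 1) * s ≤ 3 / 2 * (b + 1) * Q := by
    have h3 := mul_le_mul_of_nonneg_left f2 (by linarith : (0 : ℝ) ≤ b + 1)
    linarith
  have he4 : (d : ℝ) ≤ d * Q := le_mul_of_one_le_right hd0 f1
  have he5 : (b + 1) * (4 / w) ≤ 4 * (b + 1) / w * Q := by
    have e : (b + 1) * (4 / w) = 4 * ((b : ℝ) + 1) / w := by ring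
    rw [e]
    have : 0 ≤ 4 * ((b : ℝ) + 1) / w := by positivity
    exact le_mul_of_one_le_right this f1
  have hw1 : 1 ≤ 2 / w := by rw [le_div_iff₀ hw0]; linarith
  have he6 : 5 / 2 * b * Q + 2 * (b + 1) * Q + 2 * (3 / 2 * (b + 1) * Q) + d * Q ≤
      (15 * b + 2 * d + 10) / w * Q := by
    have e : (15 * b + 2 * d + 10) / w * Q = (15 / 2 * b + d + 5) * Q * (2 / w) := by ring
    rw [e]
    have h3 : 0 ≤ (15 / 2 * b + d + 5) * Q := by positivity
    have h4 : (15 / 2 * b + d + 5) * Q ≤ (15 / 2 * b + d + 5) * Q * (2 / w) :=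
      le_mul_of_one_le_right h3 hw1
    refine le_trans (le_of_eq ?_) h4
    ring
  have he7 : (19 * b + 2 * d + 14) / w * Q =
      (15 * b + 2 * d + 10) / w * Q + 4 * (b + 1) / w * Q := by ring
  rw [he7]
  have e8 : N * (W + s) = N * E' + N * (W - E') + N * s := by ring
  have e9 : (b + 1) * (4 / w + s) = (b + 1) * (4 / w) + (b + 1) * s := by ring
  rw [e8] at hstep5
  rw [e9] at hstep7
  linarith

end

end Pool.Agent.V11115.SO
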