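import Pool.Agent.V11115.SparseOnes

/-!
# Digits of square roots: residue classes
-/

set_option autoImplicit false

namespace Pool.Agent.V11115.SO

open Finset Filter Topology

lemma SS_residues {b : ℕ} (hb : 2 ≤ b) (y : ℝ) {m : ℕ} (hm : 1 ≤ m) {ω : ℂ} (hω : ω ^ m = 1)
    {r : ℝ} (h0 : 0 ≤ r) (h1 : r < 1) :
    SS b y (r * ω) = ∑ j ∈ range m, ω ^ j * (aa b y m j r : ℂ) := by
  have hs : Summable fun k => ‖(digit b y k : ℂ) * (r : ℂ) ^ k‖ :=
    summable_norm_digits hb y (by rw [Complex.norm_real, Real.norm_of_nonneg h0]; exact h1)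
  have hsj : ∀ j : ℕ, Summable fun k =>
      if k % m = j then (digit b y k : ℂ) * (r : ℂ) ^ k else 0 := by
    intro j
    refine Summable.of_norm_bounded hs fun k => ?_
    split_ifs
    · exact le_rfl
    · rw [norm_zero]; positivity
  have hcast : ∀ j : ℕ, (aa b y m j r : ℂ) =
      ∑' k, if k % m = j then (digit b y k : ℂ) * (r : ℂ) ^ k else 0 := by
    intro j
    unfold aa
    rw [Complex.ofReal_tsum]
    congr 1
    funext k
    split_ifs <;> simp
  calc SS b y (r * ω) = ∑' k, ω ^ (k % m) * ((digit b y k : ℂ) * (r : ℂ) ^ k) := by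
        unfold SS
        congr 1
        funext k
        have : ω ^ k = ω ^ (k % m) := by
          conv_lhs => rw [← Nat.mod_add_div k m]
          rw [pow_add, pow_mul, hω, one_pow, mul_one]
        rw [mul_pow, this]
        ring
    _ = ∑' k, ∑ j ∈ range m,
          ω ^ j * (if k % m = j then (digit b y k : ℂ) * (r : ℂ) ^ k else 0) := by
        congr 1
        funext k
        rw [sum_eq_single (k % m)]
        · rw [if_pos rfl]
        · intro j _ hj
          rw [if_neg (Ne.symm hj), mul_zero]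
        · intro h
          exact absurd (mem_range.2 (Nat.mod_lt _ hm)) h
    _ = ∑ j ∈ range m, ∑' k,
          ω ^ j * (if k % m = j then (digit b y k : ℂ) * (r : ℂ) ^ k else 0) := by
        rw [Summable.tsum_finsetSum]
        intro j _
        exact (hsj j).mul_left _
    _ = ∑ j ∈ range m, ω ^ j * (aa b y m j r : ℂ) := by
        refine sum_congr rfl fun j _ => ?_
        rw [tsum_mul_left, hcast]

/-- Parseval's identity -/
lemma parseval {m : ℕ} {ζ : ℂ} (hζ : IsPrimitiveRoot ζ m) (hn : ‖ζ‖ = 1) (c : ℕ → ℝ) :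
    ∑ t ∈ range m, ‖∑ j ∈ range m, (ζ ^ t) ^ j * (c j : ℂ)‖ ^ 2 = m * ∑ j ∈ range m, c j ^ 2 := by
  have hcj : ζ * (starRingEnd ℂ) ζ = 1 := by
    rw [Complex.mul_conj', hn]; norm_num
  have hpow : ∀ k : ℕ, ζ ^ k * ((starRingEnd ℂ) ζ) ^ k = 1 := by
    intro k; rw [← mul_pow, hcj, one_pow]
  have h1 : ∀ t : ℕ, ((‖∑ j ∈ range m, (ζ ^ t) ^ j * (c j : ℂ)‖ ^ 2 : ℝ) : ℂ) =
      ∑ j ∈ range m, ∑ k ∈ range m, (c j : ℂ) * (c k : ℂ) *
        (ζ ^ j * ((starRingEnd ℂ) ζ) ^ k) ^ t := by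
    intro t
    push_cast
    rw [← Complex.mul_conj', map_sum, sum_mul_sum]
    refine sum_congr rfl fun j _ => sum_congr rfl fun k _ => ?_
    rw [map_mul, map_pow, map_pow, Complex.conj_ofReal]
    rw [mul_pow, ← pow_mul, ← pow_mul, ← pow_mul, ← pow_mul, mul_comm t j, mul_comm t k]
    ring
  have h2 : ∀ j ∈ range m, ∀ k ∈ range m,
      ∑ t ∈ range m, (ζ ^ j * ((starRingEnd ℂ) ζ) ^ k) ^ t = if j = k then (m : ℂ) else 0 := by
    intro j hj k hk
    split_ifs with h
    · subst h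
      simp [hpow j]
    · have hu : ζ ^ j * ((starRingEnd ℂ) ζ) ^ k ≠ 1 := by
        intro hu
        apply h
        have h3 : ζ ^ j = ζ ^ k := by
          calc ζ ^ j = ζ ^ j * (ζ ^ k * ((starRingEnd ℂ) ζ) ^ k) := by rw [hpow, mul_one]
            _ = ζ ^ k * (ζ ^ j * ((starRingEnd ℂ) ζ) ^ k) := by ring
            _ = ζ ^ k := by rw [hu, mul_one]
        exact hζ.pow_inj (mem_range.1 hj) (mem_range.1 hk) h3
      rw [geom_sum_eq hu]
      have hum : (ζ ^ j * ((starRingEnd ℂ) ζ) ^ k) ^ m = 1 := by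
        rw [mul_pow, ← pow_mul, ← pow_mul, mul_comm j m, mul_comm k m, pow_mul, pow_mul,
          ← map_pow, hζ.pow_eq_one]
        simp
      rw [hum, sub_self, zero_div]
  have h3 : ((∑ t ∈ range m, ‖∑ j ∈ range m, (ζ ^ t) ^ j * (c j : ℂ)‖ ^ 2 : ℝ) : ℂ) =
      ((m * ∑ j ∈ range m, c j ^ 2 : ℝ) : ℂ) := by
    rw [Complex.ofReal_sum, sum_congr rfl fun t _ => h1 t, sum_comm]
    have : ∀ j ∈ range m, ∑ t ∈ range m, ∑ k ∈ range m, (c j : ℂ) * (c k : ℂ) *
        (ζ ^ j * ((starRingEnd ℂ) ζ) ^ k) ^ t = (m : ℂ) * (c j : ℂ) ^ 2 := by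
      intro j hj
      rw [sum_comm]
      have : ∀ k ∈ range m, ∑ t ∈ range m, (c j : ℂ) * (c k : ℂ) *
        (ζ ^ j * ((starRingEnd ℂ) ζ) ^ k) ^ t =
          if j = k then (m : ℂ) * (c j : ℂ) ^ 2 else 0 := by
        intro k hk
        rw [← mul_sum, h2 j hj k hk]
        split_ifs with h
        · rw [h]; ring
        · rw [mul_zero]
      rw [sum_congr rfl this, sum_ite_eq, if_pos hj]
    rw [sum_congr rfl this]
    push_cast
    rw [mul_sum]
  exact_mod_cast h3

section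
variable {b d : ℕ} (hb : 2 ≤ b) (hd : ¬ IsSquare d)

include hb hd in
/-- **residue classes** -/
theorem residues {m : ℕ} (hm : 1 ≤ m) : ∃ C : ℝ, ∀ r : ℝ, 3 / 4 ≤ r → r < 1 →
    ∑ j ∈ range m, (aa b (Real.sqrt d) m j r - ss b (Real.sqrt d) r / m) ^ 2 ≤
      Real.sqrt (b ^ 2 + 1) / (b - 1) * EE b d r +
        C * (Real.sqrt (1 - r) * ss b (Real.sqrt d) r ^ 2) := by
  have hbR : (2 : ℝ) ≤ b := by exact_mod_cast hb
  set ζ : ℂ := Complex.exp (2 * Real.pi * Complex.I / m) with hζdef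
  have hζ : IsPrimitiveRoot ζ m := Complex.isPrimitiveRoot_exp m (by omega)
  have hn : ‖ζ‖ = 1 := hζ.norm'_eq_one (by omega)
  obtain ⟨m', rfl⟩ : ∃ m', m = m' + 1 := ⟨m - 1, by omega⟩
  set K : ℕ → ℝ := fun t => (19 * b + 2 * d + 14) / ‖1 - ζ ^ (t + 1)‖ with hK
  set R : ℝ := Real.sqrt (b ^ 2 + 1) / (b - 1) with hR
  have hR0 : 0 ≤ R := div_nonneg (Real.sqrt_nonneg _) (by linarith)
  set M : ℝ := ((m' + 1 : ℕ) : ℝ) with hM
  have hM0 : 0 < M := by rw [hM]; positivity
  refine ⟨(∑ t ∈ range m', K t) / M + R * (4 * b), fun r h0 h1 => ?_⟩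
  obtain ⟨f1, f2, f3⟩ := facts hb hd h0 h1
  have hEge := EE_ge hb hd h0 h1
  set s := ss b (Real.sqrt d) r with hs
  set Q := Real.sqrt (1 - r) * s ^ 2 with hQ
  set E := EE b d r with hE
  have hQ0 : 0 ≤ Q := by linarith
  set B : ℕ → ℝ := fun j => aa b (Real.sqrt d) (m' + 1) j r - s / M with hB
  have hpars := parseval hζ hn B
  -- the sums over roots of unity
  have hsum : ∀ t : ℕ, ∑ j ∈ range (m' + 1), (ζ ^ t) ^ j * (B j : ℂ) =
      SS b (Real.sqrt d) (r * ζ ^ t) - (s / M : ℝ) * ∑ j ∈ range (m' + 1), (ζ ^ t) ^ j := by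
    intro t
    rw [SS_residues hb (Real.sqrt d) (by omega : 1 ≤ m' + 1) (ω := ζ ^ t)
      (by rw [← pow_mul, mul_comm, pow_mul, hζ.pow_eq_one, one_pow]) (by linarith) h1]
    rw [mul_sum, ← sum_sub_distrib]
    refine sum_congr rfl fun j _ => ?_
    rw [hB]
    push_cast
    ring
  have hzero : ∑ j ∈ range (m' + 1), (ζ ^ 0) ^ j * (B j : ℂ) = 0 := by
    rw [hsum, pow_zero, mul_one, SS_ofReal]
    have : ∑ j ∈ range (m' + 1), (1 : ℂ) ^ j = (M : ℂ) := by
      rw [hM]; simp
    rw [this, ← hs]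
    push_cast
    have hMc : (M : ℂ) ≠ 0 := by exact_mod_cast hM0.ne'
    field_simp
    ring
  have hne : ∀ t ∈ range m', ζ ^ (t + 1) ≠ 1 := by
    intro t ht h
    rw [mem_range] at ht
    have := hζ.pow_ne_one_of_pos_of_lt (by omega : t + 1 ≠ 0) (by omega)
    exact this h
  have hsucc : ∀ t ∈ range m', ∑ j ∈ range (m' + 1), (ζ ^ (t + 1)) ^ j * (B j : ℂ) =
      SS b (Real.sqrt d) (r * ζ ^ (t + 1)) := by
    intro t ht
    rw [hsum, geom_sum_eq (hne t ht)]
    have : (ζ ^ (t + 1)) ^ (m' + 1) = 1 := by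
      rw [← pow_mul, mul_comm, pow_mul, hζ.pow_eq_one, one_pow]
    rw [this]
    simp
  rw [sum_range_succ', hzero] at hpars
  simp only [norm_zero, ne_eq, OfNat.ofNat_ne_zero, not_false_eq_true, zero_pow, add_zero] at hpars
  have hupper : ∑ t ∈ range m', ‖∑ j ∈ range (m' + 1), (ζ ^ (t + 1)) ^ j * (B j : ℂ)‖ ^ 2 ≤
      ∑ t ∈ range m', (‖(b : ℂ) * ζ ^ (t + 1) - 1‖ / (b - 1) * E + K t * Q) := by
    refine sum_le_sum fun t ht => ?_
    rw [hsucc t ht]
    exact circle hb hd (by rw [norm_pow, hn, one_pow]) (hne t ht) h0 h1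
  rw [sum_add_distrib, ← sum_mul, ← sum_mul, ← sum_div] at hupper
  set P := ∑ t ∈ range m', ‖(b : ℂ) * ζ ^ (t + 1) - 1‖ with hP
  have hP0 : 0 ≤ P := sum_nonneg fun _ _ => norm_nonneg _
  have hPle : P ≤ M * Real.sqrt (b ^ 2 + 1) := by
    rcases Nat.eq_zero_or_pos m' with h | h
    · rw [hP, h]
      simp only [range_zero, sum_empty]
      positivity
    · have h2 := parseval hζ hn (fun j => if j = 0 then -1 else if j = 1 then (b : ℝ) else 0)
      have h3 : ∑ j ∈ range (m' + 1),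
          (if j = 0 then (-1 : ℝ) else if j = 1 then (b : ℝ) else 0) ^ 2 = b ^ 2 + 1 := by
        have e : range (m' + 1) = {0, 1} ∪ Ico 2 (m' + 1) := by
          ext j; simp only [mem_range, mem_union, mem_insert, mem_singleton, mem_Ico]; omega
        rw [e, sum_union]
        · rw [sum_pair (by norm_num)]
          rw [sum_eq_zero]
          · norm_num; ring
          · intro j hj
            rw [mem_Ico] at hj
            rw [if_neg (by omega), if_neg (by omega)]; norm_num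
        · rw [disjoint_left]
          intro j hj hj'
          simp only [mem_insert, mem_singleton, mem_Ico] at hj hj'
          omega
      have h4 : ∀ t : ℕ, ∑ j ∈ range (m' + 1), (ζ ^ t) ^ j *
          (((if j = 0 then (-1 : ℝ) else if j = 1 then (b : ℝ) else 0) : ℝ) : ℂ) =
            (b : ℂ) * ζ ^ t - 1 := by
        intro t
        have e : range (m' + 1) = {0, 1} ∪ Ico 2 (m' + 1) := by
          ext j; simp only [mem_range, mem_union, mem_insert, mem_singleton, mem_Ico]; omega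
        rw [e, sum_union]
        · rw [sum_pair (by norm_num)]
          rw [sum_eq_zero]
          · norm_num; ring
          · intro j hj
            rw [mem_Ico] at hj
            rw [if_neg (by omega), if_neg (by omega)]; norm_num
        · rw [disjoint_left]
          intro j hj hj'
          simp only [mem_insert, mem_singleton, mem_Ico] at hj hj'
          omega
      rw [h3] at h2
      simp_rw [h4] at h2
      have h5 : ∑ t ∈ range m', ‖(b : ℂ) * ζ ^ (t + 1) - 1‖ ^ 2 ≤ M * (b ^ 2 + 1) := by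
        rw [hM, ← h2, sum_range_succ']
        have : 0 ≤ ‖(b : ℂ) * ζ ^ 0 - 1‖ ^ 2 := by positivity
        linarith
      have h6 : P ^ 2 ≤ m' * ∑ t ∈ range m', ‖(b : ℂ) * ζ ^ (t + 1) - 1‖ ^ 2 := by
        have := sq_sum_le_card_mul_sum_sq (s := range m')
          (f := fun t => ‖(b : ℂ) * ζ ^ (t + 1) - 1‖)
        rw [card_range] at this
        exact this
      have h7 : P ^ 2 ≤ M ^ 2 * (b ^ 2 + 1) := by
        calc P ^ 2 ≤ m' * (M * (b ^ 2 + 1)) := h6.trans (mul_le_mul_of_nonneg_left h5 (by positivity))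
          _ ≤ M * (M * (b ^ 2 + 1)) := by
            refine mul_le_mul_of_nonneg_right ?_ (by positivity)
            rw [hM]; push_cast; linarith
          _ = M ^ 2 * (b ^ 2 + 1) := by ring
      have h8 : M * Real.sqrt (b ^ 2 + 1) = Real.sqrt (M ^ 2 * (b ^ 2 + 1)) := by
        rw [Real.sqrt_mul (by positivity), Real.sqrt_sq hM0.le]
      rw [h8]
      exact Real.le_sqrt_of_sq_le h7
  have hPE : P / (b - 1) * E ≤ M * R * E + M * R * (4 * b * Q) := by
    have h2 : P / (b - 1) ≤ M * R := by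
      rw [hR, ← mul_div_assoc]
      exact div_le_div_of_nonneg_right hPle (by linarith)
    have h3 : 0 ≤ P / (b - 1) := div_nonneg hP0 (by linarith)
    have h4 : (M * R - P / (b - 1)) * (-(4 * b * Q)) ≤ (M * R - P / (b - 1)) * E :=
      mul_le_mul_of_nonneg_left hEge (by linarith)
    have h5 : 0 ≤ P / (b - 1) * (4 * b * Q) := by positivity
    linarith
  have hfin : M * ∑ j ∈ range (m' + 1), B j ^ 2 ≤
      M * (R * E + ((∑ t ∈ range m', K t) / M + R * (4 * b)) * Q) := by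
    rw [← hM] at hpars
    rw [← hpars]
    have e : M * (R * E + ((∑ t ∈ range m', K t) / M + R * (4 * b)) * Q) =
        M * R * E + M * R * (4 * b * Q) + (∑ t ∈ range m', K t) * Q := by
      field_simp
      ring
    rw [e]
    linarith
  exact le_of_mul_le_mul_left hfin hM0

end

end Pool.Agent.V11115.SO
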