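import Mathlib

/-!
# Definitions for the power series of the digits of a square root
-/

set_option autoImplicit false

namespace Pool.Agent.V11115.SO

/-- the `k`-th base `b` digit of `y` after the point (`k ≥ 1`); the integral part of `y` for
`k = 0` -/
noncomputable def digit (b : ℕ) (y : ℝ) (k : ℕ) : ℕ :=
  if k = 0 then ⌊y⌋₊ else ⌊y * (b : ℝ) ^ k⌋₊ % b

/-- the power series of the digits at a complex point -/
noncomputable def SS (b : ℕ) (y : ℝ) (z : ℂ) : ℂ := ∑' k, (digit b y k : ℂ) * z ^ k

/-- the power series of the digits at a real point -/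
noncomputable def ss (b : ℕ) (y r : ℝ) : ℝ := ∑' k, (digit b y k : ℝ) * r ^ k

/-- the part of the power series of the digits with the places in a residue class -/
noncomputable def aa (b : ℕ) (y : ℝ) (m j : ℕ) (r : ℝ) : ℝ :=
  ∑' k, if k % m = j then (digit b y k : ℝ) * r ^ k else 0

/-- `2` if `b` and `d` are even, `1` otherwise -/
def g0 (b d : ℕ) : ℕ := if Even b ∧ Even d then 2 else 1

/-- the lower bound for the coefficients `T(n)`: `2` if `b` and `d` are even and `n` is not of the
form `2k` with `x_k` odd, and `1` otherwise -/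
noncomputable def gg (b d : ℕ) (y : ℝ) (n : ℕ) : ℕ :=
  if Even b ∧ Even d ∧ ¬ (Even n ∧ Odd (digit b y (n / 2))) then 2 else 1

/-- the excess over the minimum -/
noncomputable def EE (b d : ℕ) (r : ℝ) : ℝ :=
  ss b (Real.sqrt d) r ^ 2 - g0 b d * (b - 1) / (1 - r)

end Pool.Agent.V11115.SO
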